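import Pool.Agent.V11290.TI.A1

set_option autoImplicit false

/-! The first moment over families of residues of nearly minimal energy. -/

namespace Pool.Agent.V11290.TI
open Finset
open Pool.Agent.H807R2.Dav
open Pool.Agent.TH212.DV
open Pool.Agent.TH212.PL (En)
open Pool.Agent.H373R2.T7 (energy)

/-- the sum over the divisors minus its model -/
noncomputable def ff (W : ℕ → ℝ) (D z n : ℕ) : ℝ := FF W D n - MM W D z (n : ℤ)

/-- the difference between the sum over the progressions and its model, without the term `n = a` -/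
noncomputable def dif (W : ℕ → ℝ) (D z X : ℕ) (g : ℕ → ℝ) (a : ℤ) : ℝ :=
  ∑ n ∈ Icc 1 X, g n * (if (n : ℤ) = a then 0 else ff W D z ((n : ℤ) - a).natAbs)

lemma En_fin (p x : ℕ) (s : ℕ → ℤ) (σ c : ℤ) (hσ : σ = 1 ∨ σ = -1) :
    En p (fun i : Fin x => σ * s ((i : ℕ) + 1) + c) ≤ energy p x s := by
  classical
  unfold energy En
  rw [Nat.card_eq_fintype_card, Fintype.card_subtype]
  apply card_le_card_of_injOn (fun q => (fun j => ((q.1 j : Fin x) : ℕ) + 1, fun j => ((q.2 j : Fin x) : ℕ) + 1))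
  · intro q hq
    rw [mem_coe, mem_filter] at hq
    rw [mem_coe, mem_filter, mem_product, Fintype.mem_piFinset, Fintype.mem_piFinset]
    refine ⟨⟨fun j => ?_, fun j => ?_⟩, ?_⟩
    · rw [mem_Icc]
      have := (q.1 j).2
      simp only
      omega
    · rw [mem_Icc]
      have := (q.2 j).2
      simp only
      omega
    · have h1 := hq.2
      rw [sum_add_distrib, sum_add_distrib, ← mul_sum, ← mul_sum] at h1
      have h2 := add_right_cancel h1
      rcases hσ with h | h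
      · rw [h, one_mul, one_mul] at h2
        exact h2
      · rw [h, neg_one_mul, neg_one_mul, neg_inj] at h2
        exact h2
  · intro q hq q' hq' h2
    simp only [Prod.mk.injEq] at h2
    apply Prod.ext
    · funext j
      have := congrFun h2.1 j
      exact Fin.ext (by omega)
    · funext j
      have := congrFun h2.2 j
      exact Fin.ext (by omega)

lemma dif_split (W : ℕ → ℝ) (D z X H : ℕ) (g : ℕ → ℝ) (a : ℤ) (hH : ∀ n ∈ Icc 1 X, |(n : ℤ) - a| ≤ H) :
    dif W D z X g a =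
      ∑ n ∈ Icc 1 X, g n * (if 1 ≤ (n : ℤ) + (-1 * a + 0) ∧ (n : ℤ) + (-1 * a + 0) ≤ H then ff W D z ((n : ℤ) + (-1 * a + 0)).toNat else 0) +
      ∑ n ∈ Icc 1 X, g (X + 1 - n) * (if 1 ≤ (n : ℤ) + (1 * a + (-(X : ℤ) - 1)) ∧ (n : ℤ) + (1 * a + (-(X : ℤ) - 1)) ≤ H
        then ff W D z ((n : ℤ) + (1 * a + (-(X : ℤ) - 1))).toNat else 0) := by
  have h1 : ∑ n ∈ Icc 1 X, g (X + 1 - n) * (if 1 ≤ (n : ℤ) + (1 * a + (-(X : ℤ) - 1)) ∧ (n : ℤ) + (1 * a + (-(X : ℤ) - 1)) ≤ H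
        then ff W D z ((n : ℤ) + (1 * a + (-(X : ℤ) - 1))).toNat else 0) =
      ∑ n ∈ Icc 1 X, g n * (if 1 ≤ a - (n : ℤ) ∧ a - (n : ℤ) ≤ H then ff W D z (a - (n : ℤ)).toNat else 0) := by
    apply sum_nbij' (fun n => X + 1 - n) (fun n => X + 1 - n)
    · intro n hn
      rw [mem_Icc] at hn ⊢
      omega
    · intro n hn
      rw [mem_Icc] at hn ⊢
      omega
    · intro n hn
      rw [mem_Icc] at hn
      omega
    · intro n hn
      rw [mem_Icc] at hn
      omega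
    · intro n hn
      rw [mem_Icc] at hn
      have e : (n : ℤ) + (1 * a + (-(X : ℤ) - 1)) = a - ((X + 1 - n : ℕ) : ℤ) := by
        rw [Nat.cast_sub (by omega)]
        push_cast
        ring
      rw [e]
  rw [h1, ← sum_add_distrib]
  unfold dif
  apply sum_congr rfl
  intro n hn
  have h2 := abs_le.1 (hH n hn)
  rw [← mul_add]
  congr 1
  rcases lt_trichotomy (n : ℤ) a with h | h | h
  · rw [if_neg (by omega), if_neg (by omega), if_pos (by omega), zero_add]
    congr 1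
    omega
  · rw [if_pos h, if_neg (by omega), if_neg (by omega), add_zero]
  · rw [if_neg (by omega), if_pos (by omega), if_neg (by omega), add_zero]
    congr 1
    omega

lemma sum_fin (x : ℕ) (F : ℕ → ℝ) : ∑ m ∈ Icc 1 x, F m = ∑ i : Fin x, F ((i : ℕ) + 1) := by
  rw [Finset.sum_fin_eq_sum_range]
  apply sum_nbij' (fun m => m - 1) (fun m => m + 1)
  · intro m hm
    rw [mem_Icc] at hm
    rw [mem_range]
    omega
  · intro m hm
    rw [mem_range] at hm
    rw [mem_Icc]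
    omega
  · intro m hm
    rw [mem_Icc] at hm
    omega
  · intro m hm
    omega
  · intro m hm
    rw [mem_Icc] at hm
    rw [dif_pos (by omega : m - 1 < x)]
    congr 1
    simp only
    omega

theorem mom (p B C c T U : ℕ) : ∃ K B0 : ℕ, ∀ E : ℕ, ∃ N₀ : ℕ, ∀ N : ℕ, N₀ ≤ N → ∀ (x : ℕ) (s : ℕ → ℤ),
    (∀ m ∈ Icc 1 x, |s m| ≤ B * N) → (energy p x s : ℝ) * N ≤ Real.log N ^ C * (x : ℝ) ^ (2 * p) →
    ∀ z : ℕ, Real.log N ^ B0 ≤ z → (z : ℝ) ≤ Real.log N ^ E → ∀ X : ℕ, X ≤ B * N →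
    ∀ g : ℕ → ℝ, ∑ n ∈ Icc 1 X, g n ^ 2 ≤ N * Real.log N ^ c → ∀ W : ℕ → ℝ, (∀ d, |W d| ≤ Real.log N ^ T) →
    ∀ D : ℕ, (D : ℝ) * Real.log N ^ K ≤ N → ∑ m ∈ Icc 1 x, |dif W D z X g (s m)| ≤ N * x / Real.log N ^ U := by
  classical
  obtain ⟨U', n1, h1⟩ := fam_l2 p 2 (C + 1) (2 * T + 8) c (U + 1)
  obtain ⟨K, B0, hKB⟩ := sup_bound T U'
  refine ⟨K + 1, B0 + 1, fun E => ?_⟩
  obtain ⟨n2, h2⟩ := hKB E
  obtain ⟨n3, h3⟩ := l2_bound T
  obtain ⟨R, hR⟩ : ∃ R : ℕ, R = 2 * (B + 1) := ⟨_, rfl⟩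
  obtain ⟨n4, h4⟩ := ev_log (2 ^ B0 + 2 ^ K + 8 * R + 4 : ℝ)
  obtain ⟨n5, h5⟩ := ev_pow E 1 1 one_pos
  refine ⟨n1 + n2 + n3 + n4 + n5 + R + 3, fun N hN x s hs hE z hz1 hz2 X hX g hg W hW D hD => ?_⟩
  have a4 := h4 N (by omega)
  have a5 := h5 N (by omega)
  have hN1 : 1 ≤ N := by omega
  have hN0 : (0 : ℝ) < N := by exact_mod_cast hN1
  obtain ⟨N', hN'⟩ : ∃ N' : ℕ, N' = R * N := ⟨_, rfl⟩
  have hR1 : 1 ≤ R := by omega
  have hNN' : N ≤ N' := by rw [hN']; exact Nat.le_mul_of_pos_left _ hR1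
  have hNN'r : (N : ℝ) ≤ N' := by exact_mod_cast hNN'
  have hN'r : (N' : ℝ) = R * N := by rw [hN']; push_cast; ring
  have hN'0 : (0 : ℝ) < N' := by linarith
  obtain ⟨L, hL⟩ : ∃ L, L = Real.log (N : ℝ) := ⟨_, rfl⟩
  obtain ⟨L', hL'⟩ : ∃ L', L' = Real.log (N' : ℝ) := ⟨_, rfl⟩
  rw [← hL] at a4 a5 hE hz1 hz2 hg hW hD ⊢
  have hRr : (1 : ℝ) ≤ R := by exact_mod_cast hR1
  have hp0 : (0 : ℝ) ≤ 2 ^ B0 := by positivity
  have hp1 : (0 : ℝ) ≤ 2 ^ K := by positivity
  have hL1 : 1 ≤ L := by linarith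
  have hL0 : 0 < L := by linarith
  have hLL' : L ≤ L' := by rw [hL, hL']; exact Real.log_le_log hN0 hNN'r
  have hL'2 : L' ≤ 2 * L := by
    rw [hL', hN'r, Real.log_mul (by positivity) hN0.ne', ← hL]
    have : Real.log R ≤ L := by
      rw [hL]
      exact Real.log_le_log (by linarith) (by exact_mod_cast (by omega : R ≤ N))
    linarith
  have hL'1 : 1 ≤ L' := by linarith
  have hL'0 : 0 < L' := by linarith
  have hx0 : (0 : ℝ) ≤ x := Nat.cast_nonneg _
  -- the hypotheses at the larger scale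
  have hz1' : L' ^ B0 ≤ z := by
    refine le_trans ?_ hz1
    calc L' ^ B0 ≤ (2 * L) ^ B0 := pow_le_pow_left₀ hL'0.le hL'2 _
      _ = 2 ^ B0 * L ^ B0 := mul_pow _ _ _
      _ ≤ L * L ^ B0 := mul_le_mul_of_nonneg_right (by linarith) (by positivity)
      _ = _ := by rw [pow_succ]; ring
  have hz2' : (z : ℝ) ≤ L' ^ E := hz2.trans (pow_le_pow_left₀ hL0.le hLL' _)
  have hW' : ∀ d, |W d| ≤ L' ^ T := fun d => (hW d).trans (pow_le_pow_left₀ hL0.le hLL' _)
  have hzN : z ≤ N' := by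
    have : (z : ℝ) ≤ N := by
      rw [one_mul, Real.rpow_one] at a5
      exact hz2.trans a5
    have h6 : z ≤ N := by exact_mod_cast this
    omega
  have hD0 : (0 : ℝ) ≤ D := Nat.cast_nonneg _
  have hD' : (D : ℝ) * L' ^ K ≤ N' := by
    refine le_trans ?_ (hD.trans hNN'r)
    apply mul_le_mul_of_nonneg_left _ hD0
    calc L' ^ K ≤ (2 * L) ^ K := pow_le_pow_left₀ hL'0.le hL'2 _
      _ = 2 ^ K * L ^ K := mul_pow _ _ _
      _ ≤ L * L ^ K := mul_le_mul_of_nonneg_right (by linarith) (by positivity)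
      _ = _ := by rw [pow_succ]; ring
  have hDN : D ≤ N' := by
    have : (D : ℝ) ≤ N' := by
      refine le_trans ?_ hD'
      exact le_mul_of_one_le_right hD0 (one_le_pow₀ hL'1)
    exact_mod_cast this
  have hBN : B * N ≤ N' := by rw [hN', hR]; exact Nat.mul_le_mul_right _ (by omega)
  have h2BN : 2 * (B * N) + 2 * N = N' := by rw [hN', hR]; ring
  have hXN : X ≤ N' := hX.trans hBN
  have hsup := h2 N' (by omega) z (by rw [← hL']; exact hz1') (by rw [← hL']; exact hz2') W (by rw [← hL']; exact hW') D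
    (by rw [← hL']; exact hD') N' le_rfl
  have hff := h3 N' (by omega) z hzN W (by rw [← hL']; exact hW') D hDN N' le_rfl
  have hXz : (X : ℤ) ≤ B * N := by exact_mod_cast hX
  have h2z : 2 * ((B : ℤ) * N) + 2 * N = N' := by exact_mod_cast h2BN
  have hNz : (1 : ℤ) ≤ N := by exact_mod_cast hN1
  have hX0 : (0 : ℤ) ≤ X := by positivity
  have hgen : ∀ (σ cc : ℤ), (σ = 1 ∨ σ = -1) → (∀ m ∈ Icc 1 x, |σ * s m + cc| ≤ 2 * (N' : ℤ)) → ∀ G : ℕ → ℝ,
      ∑ n ∈ Icc 1 X, G n ^ 2 ≤ N * L ^ c →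
      ∑ m ∈ Icc 1 x, |∑ n ∈ Icc 1 X, G n * (if 1 ≤ (n : ℤ) + (σ * s m + cc) ∧ (n : ℤ) + (σ * s m + cc) ≤ N'
        then ff W D z ((n : ℤ) + (σ * s m + cc)).toNat else 0)| ≤ N * x / L ^ U / 2 := by
    intro σ cc hσ hb G hG
    have q1 := h1 N' (by omega) (Fin x) (fun i : Fin x => σ * s ((i : ℕ) + 1) + cc) (by
      intro i
      refine (hb _ (mem_Icc.2 ⟨by omega, i.2⟩)).trans (le_of_eq ?_)
      push_cast
      ring) (by
      rw [← hL', Fintype.card_fin]
      have q2 : (En p (fun i : Fin x => σ * s ((i : ℕ) + 1) + cc) : ℝ) ≤ energy p x s := by exact_mod_cast En_fin p x s σ cc hσ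
      calc (En p (fun i : Fin x => σ * s ((i : ℕ) + 1) + cc) : ℝ) * N' ≤ energy p x s * N' :=
            mul_le_mul_of_nonneg_right q2 hN'0.le
        _ = R * (energy p x s * N) := by rw [hN'r]; ring
        _ ≤ R * (L ^ C * (x : ℝ) ^ (2 * p)) := mul_le_mul_of_nonneg_left hE (by positivity)
        _ ≤ L' * (L' ^ C * (x : ℝ) ^ (2 * p)) := by
            apply mul_le_mul (by linarith) _ (by positivity) hL'0.le
            apply mul_le_mul_of_nonneg_right _ (by positivity)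
            exact pow_le_pow_left₀ hL0.le hLL' _
        _ = _ := by rw [pow_succ]; ring) X N' hXN le_rfl G (ff W D z) (by
      rw [← hL']
      refine hG.trans ?_
      apply mul_le_mul hNN'r _ (by positivity) hN'0.le
      exact pow_le_pow_left₀ hL0.le hLL' _) (by rw [← hL'] at hff ⊢; exact hff) hsup
    rw [← hL', Fintype.card_fin] at q1
    rw [sum_fin]
    refine q1.trans ?_
    rw [hN'r]
    calc (R : ℝ) * N * x / L' ^ (U + 1) ≤ (R : ℝ) * N * x / L ^ (U + 1) := by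
          apply div_le_div_of_nonneg_left (by positivity) (by positivity)
          exact pow_le_pow_left₀ hL0.le hLL' _
      _ = (R / L) * (N * x / L ^ U) := by rw [pow_succ]; field_simp
      _ ≤ (1 / 2) * (N * x / L ^ U) := by
          apply mul_le_mul_of_nonneg_right _ (by positivity)
          rw [div_le_div_iff₀ hL0 (by norm_num)]
          linarith
      _ = _ := by ring
  have hsb : ∀ m ∈ Icc 1 x, -(B * N : ℤ) ≤ s m ∧ s m ≤ B * N := fun m hm => abs_le.1 (hs m hm)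
  have t1 := hgen (-1) 0 (Or.inr rfl) (by
    intro m hm
    obtain ⟨b1, b2⟩ := hsb m hm
    rw [abs_le]
    constructor <;> linarith) g hg
  have t2 := hgen 1 (-(X : ℤ) - 1) (Or.inl rfl) (by
    intro m hm
    obtain ⟨b1, b2⟩ := hsb m hm
    rw [abs_le]
    constructor <;> linarith) (fun n => g (X + 1 - n)) (by
    refine le_trans (le_of_eq ?_) hg
    apply sum_nbij' (fun n => X + 1 - n) (fun n => X + 1 - n)
    · intro n hn
      rw [mem_Icc] at hn ⊢
      omega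
    · intro n hn
      rw [mem_Icc] at hn ⊢
      omega
    · intro n hn
      rw [mem_Icc] at hn
      omega
    · intro n hn
      rw [mem_Icc] at hn
      omega
    · intro n hn
      rfl)
  calc ∑ m ∈ Icc 1 x, |dif W D z X g (s m)| ≤
      ∑ m ∈ Icc 1 x, (|∑ n ∈ Icc 1 X, g n * (if 1 ≤ (n : ℤ) + (-1 * s m + 0) ∧ (n : ℤ) + (-1 * s m + 0) ≤ N'
        then ff W D z ((n : ℤ) + (-1 * s m + 0)).toNat else 0)| +
        |∑ n ∈ Icc 1 X, g (X + 1 - n) * (if 1 ≤ (n : ℤ) + (1 * s m + (-(X : ℤ) - 1)) ∧ (n : ℤ) + (1 * s m + (-(X : ℤ) - 1)) ≤ N'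
        then ff W D z ((n : ℤ) + (1 * s m + (-(X : ℤ) - 1))).toNat else 0)|) := by
        apply sum_le_sum
        intro m hm
        rw [dif_split W D z X N' g (s m) (by
          intro n hn
          rw [mem_Icc] at hn
          obtain ⟨b1, b2⟩ := hsb m hm
          have b3 : (n : ℤ) ≤ X := by exact_mod_cast hn.2
          have b4 : (1 : ℤ) ≤ n := by exact_mod_cast hn.1
          rw [abs_le]
          constructor <;> linarith)]
        exact abs_add_le _ _
    _ ≤ N * x / L ^ U / 2 + N * x / L ^ U / 2 := by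
        rw [sum_add_distrib]
        exact add_le_add t1 t2
    _ = _ := by ring

end Pool.Agent.V11290.TI
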