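import Pool.Agent.V11290.TI.A6
import Pool.Agent.H373R2.T7.LamMaj

set_option autoImplicit false

/-! Finite index sets; the Siegel-Walfisz condition for the von Mangoldt function. -/

namespace Pool.Agent.V11290.TI
open Finset
open Pool.Agent.TH212.DV
open Pool.Agent.H373R2.T7 (energy)

lemma Sq_congr (g g' : ℕ → ℝ) (X q : ℕ) (a : ℤ) (h : ∀ n ∈ Icc 1 X, g n = g' n) : Sq g X q a = Sq g' X q a := by
  unfold Sq
  apply sum_congr rfl
  intro n hn
  rw [h n hn]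

theorem fam_fin (p B C T U : ℕ) (hp : 1 ≤ p) : ∃ K E V N₀ : ℕ, ∀ N : ℕ, N₀ ≤ N → ∀ (x : ℕ) (s : ℕ → ℤ),
    (∀ m ∈ Icc 1 x, |s m| ≤ B * N) → (energy p x s : ℝ) * N ≤ Real.log N ^ C * (x : ℝ) ^ (2 * p) →
    ∀ Ln : ℕ, (Ln : ℝ) ≤ Real.log N ^ T → ∀ X : Fin Ln → ℕ, (∀ l, X l ≤ B * N) → ∀ g W : Fin Ln → ℕ → ℝ,
    (∀ l, ∀ n ≤ X l, |g l n| ≤ Real.log N ^ T) → (∀ l q, |W l q| ≤ Real.log N ^ T) →
    ∀ 𝒮 : Finset ℕ, 𝒮 ⊆ Icc 1 x → (∀ m ∈ 𝒮, s m ≠ 0 ∧ ∃ l,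
      SW (g l) (∑ n ∈ Icc 1 (X l), g l n) (X l) ⌈Real.log N ^ E⌉₊ (N / Real.log N ^ V) ∧
      N / Real.log N ^ U < |Er (W l) (g l) (∑ n ∈ Icc 1 (X l), g l n) ⌊N / Real.log N ^ K⌋₊ (X l) (s m)|) →
    (𝒮.card : ℝ) ≤ x / Real.log N ^ U := by
  classical
  obtain ⟨K, E, V, N₀, h0⟩ := fam_sw p B C T U hp
  obtain ⟨n1, h1⟩ := ev_log 1
  refine ⟨K, E, V, N₀ + n1 + 3, fun N hN x s hs hE Ln hLn X hX g W hg hW 𝒮 h𝒮x h𝒮 => ?_⟩
  have a1 := h1 N (by omega)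
  have hL0 : 0 < Real.log (N : ℝ) := by linarith
  refine h0 N (by omega) x s hs hE Ln hLn (fun l => if h : l < Ln then X ⟨l, h⟩ else 0) ?_
    (fun l n => if h : l < Ln then (if n ≤ X ⟨l, h⟩ then g ⟨l, h⟩ n else 0) else 0)
    (fun l q => if h : l < Ln then W ⟨l, h⟩ q else 0) ?_ ?_ (fun _ => ⌊N / Real.log N ^ K⌋₊) ?_ 𝒮 h𝒮x ?_
  · intro l hl
    simp only [dif_pos hl]
    exact hX _
  · intro l hl n
    simp only [dif_pos hl]
    split_ifs with h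
    · exact hg _ n h
    · rw [abs_zero]
      positivity
  · intro l hl q
    simp only [dif_pos hl]
    exact hW _ q
  · intro l hl
    rw [← le_div_iff₀ (by positivity)]
    exact Nat.floor_le (by positivity)
  · intro m hm
    obtain ⟨hs0, l, hSW, hbig⟩ := h𝒮 m hm
    refine ⟨hs0, l, l.2, ?_⟩
    simp only [l.2, dif_pos, Fin.eta]
    have e1 : ∀ n ∈ Icc 1 (X l), (if n ≤ X l then g l n else 0) = g l n := by
      intro n hn
      rw [if_pos (mem_Icc.1 hn).2]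
    have e2 : ∑ n ∈ Icc 1 (X l), (if n ≤ X l then g l n else 0) = ∑ n ∈ Icc 1 (X l), g l n := sum_congr rfl e1
    have e3 : ∀ q a, Sq (fun n => if n ≤ X l then g l n else 0) (X l) q a = Sq (g l) (X l) q a :=
      fun q a => Sq_congr _ _ _ _ _ e1
    rw [e2]
    refine ⟨?_, ?_⟩
    · intro r hr hrz c
      rw [e3]
      exact hSW r hr hrz c
    · unfold Er at hbig ⊢
      simp_rw [e3]
      exact hbig

theorem lam_sw (B E V : ℕ) : ∃ N₀ : ℕ, ∀ N : ℕ, N₀ ≤ N → ∀ X : ℕ, X ≤ B * N →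
    SW (fun n => ArithmeticFunction.vonMangoldt n) (∑ n ∈ Icc 1 X, ArithmeticFunction.vonMangoldt n) X ⌈Real.log N ^ E⌉₊
      (N / Real.log N ^ V) := by
  classical
  obtain ⟨n0, h0⟩ := Pool.Agent.H373R2.T7.lam_ap (E + 1) (V + 1)
  obtain ⟨n1, h1⟩ := ev_log (2 * (B + 1) + 2 : ℝ)
  refine ⟨n0 + n1 + 3, fun N hN X hX r hr hrz c => ?_⟩
  have a1 := h1 N (by omega)
  have hN1 : 1 ≤ N := by omega
  have hN0 : (0 : ℝ) < N := by exact_mod_cast hN1
  obtain ⟨N', hN'⟩ : ∃ N' : ℕ, N' = (B + 1) * N := ⟨_, rfl⟩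
  have hNN' : N ≤ N' := by rw [hN']; exact Nat.le_mul_of_pos_left _ (by omega)
  have hNN'r : (N : ℝ) ≤ N' := by exact_mod_cast hNN'
  have hXN' : X ≤ N' := by
    rw [hN']
    exact hX.trans (Nat.mul_le_mul_right _ (by omega))
  obtain ⟨L, hL⟩ : ∃ L, L = Real.log (N : ℝ) := ⟨_, rfl⟩
  rw [← hL] at a1 hrz ⊢
  have hB0 : (0 : ℝ) ≤ B := Nat.cast_nonneg _
  have hL2 : 2 ≤ L := by linarith
  have hL1 : 1 ≤ L := by linarith
  have hL0 : 0 < L := by linarith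
  have hLL' : L ≤ Real.log N' := by rw [hL]; exact Real.log_le_log hN0 hNN'r
  have hL'1 : 1 ≤ Real.log (N' : ℝ) := by linarith
  have hδ : (N' : ℝ) / Real.log N' ^ (V + 1) ≤ N / L ^ V / 2 := by
    calc (N' : ℝ) / Real.log N' ^ (V + 1) ≤ (N' : ℝ) / L ^ (V + 1) := by
          apply div_le_div_of_nonneg_left (Nat.cast_nonneg _) (by positivity)
          exact pow_le_pow_left₀ hL0.le hLL' _
      _ = (N / L ^ V) * ((B + 1) / L) := by
          rw [hN', pow_succ]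
          push_cast
          field_simp
      _ ≤ (N / L ^ V) * (1 / 2) := by
          apply mul_le_mul_of_nonneg_left _ (by positivity)
          rw [div_le_div_iff₀ hL0 (by norm_num)]
          linarith
      _ = _ := by ring
  have hrK : (r : ℝ) ≤ Real.log N' ^ (E + 1) := by
    have h6 : (r : ℝ) ≤ ⌈L ^ E⌉₊ := by exact_mod_cast hrz
    have h7 : ((⌈L ^ E⌉₊ : ℕ) : ℝ) < L ^ E + 1 := Nat.ceil_lt_add_one (by positivity)
    have h8 : 1 ≤ L ^ E := one_le_pow₀ hL1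
    calc (r : ℝ) ≤ L ^ E * L := by nlinarith
      _ = L ^ (E + 1) := (pow_succ _ _).symm
      _ ≤ _ := pow_le_pow_left₀ hL0.le hLL' _
  obtain ⟨c', hc'⟩ : ∃ c' : ℕ, c' = (c % (r : ℤ)).toNat := ⟨_, rfl⟩
  have hr0 : (0 : ℤ) < r := by exact_mod_cast hr
  have hcc : (c' : ℤ) = c % r := by
    rw [hc']
    exact Int.toNat_of_nonneg (Int.emod_nonneg _ hr0.ne')
  have hS : Sq (fun n => ArithmeticFunction.vonMangoldt n) X r c =
      ∑ n ∈ (Icc 1 X).filter (fun n => n ≡ c' [MOD r]), ArithmeticFunction.vonMangoldt n := by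
    unfold Sq
    rw [sum_filter]
    apply sum_congr rfl
    intro n _
    have e1 : (r : ℤ) ∣ (n : ℤ) - c ↔ n ≡ c' [MOD r] := by
      rw [← Int.natCast_modEq_iff, hcc]
      constructor
      · intro h
        have h2 : c ≡ (n : ℤ) [ZMOD r] := Int.modEq_iff_dvd.2 h
        exact h2.symm.trans (Int.mod_modEq c r).symm
      · intro h
        have h2 : (n : ℤ) ≡ c [ZMOD r] := h.trans (Int.mod_modEq c r)
        exact Int.modEq_iff_dvd.1 h2.symm
    by_cases h : (r : ℤ) ∣ (n : ℤ) - c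
    · rw [if_pos h, if_pos (e1.1 h)]
    · rw [if_neg h, if_neg (fun h' => h (e1.2 h'))]
  have hcop : c'.Coprime r ↔ r.Coprime c.natAbs := by
    have e1 : Int.gcd (c' : ℤ) r = Int.gcd c r := by
      rw [hcc]
      exact Int.gcd_emod c r
    unfold Nat.Coprime
    have e2 : Int.gcd (c' : ℤ) r = Nat.gcd c' r := rfl
    have e3 : Int.gcd c r = Nat.gcd c.natAbs r := rfl
    rw [← e2, Nat.gcd_comm r, ← e3, e1]
  have k1 := h0 N' (by omega) r hr hrK c' X hXN'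
  have k2 := h0 N' (by omega) 1 le_rfl (by rw [Nat.cast_one]; exact one_le_pow₀ hL'1) 0 X hXN'
  have hone : ∑ n ∈ (Icc 1 X).filter (fun n => n ≡ 0 [MOD 1]), ArithmeticFunction.vonMangoldt n = ∑ n ∈ Icc 1 X, ArithmeticFunction.vonMangoldt n := by
    rw [filter_true_of_mem]
    intro n _
    exact Nat.modEq_one
  rw [hone, if_pos (Nat.coprime_one_right 0), Nat.totient_one, Nat.cast_one, div_one] at k2
  rw [hS]
  unfold Ex
  have hφ : (1 : ℝ) ≤ Nat.totient r := by exact_mod_cast Nat.totient_pos.2 (by omega : 0 < r)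
  by_cases h : c'.Coprime r
  · rw [if_pos h] at k1
    rw [if_pos (hcop.1 h)]
    have e4 : |(X : ℝ) / Nat.totient r - (∑ n ∈ Icc 1 X, ArithmeticFunction.vonMangoldt n) / Nat.totient r| ≤ N / L ^ V / 2 := by
      rw [← sub_div, abs_div, abs_of_nonneg (by linarith : (0 : ℝ) ≤ (Nat.totient r : ℝ)), abs_sub_comm]
      exact (div_le_self (abs_nonneg _) hφ).trans (k2.trans hδ)
    have e5 := abs_sub_le (∑ n ∈ (Icc 1 X).filter (fun n => n ≡ c' [MOD r]), ArithmeticFunction.vonMangoldt n) ((X : ℝ) / Nat.totient r)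
      ((∑ n ∈ Icc 1 X, ArithmeticFunction.vonMangoldt n) / Nat.totient r)
    linarith [k1.trans hδ]
  · rw [if_neg h] at k1
    rw [if_neg (fun h' => h (hcop.2 h'))]
    have : 0 ≤ N / L ^ V / 2 := by positivity
    linarith [k1.trans hδ]

end Pool.Agent.V11290.TI
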