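import Pool.Agent.TH212.DV.C8
import Pool.Agent.TH212.DV.C12
import Pool.Agent.W93.LV2

set_option autoImplicit false

/-! Sums over divisors below a given level and their models: bounds. -/

namespace Pool.Agent.V11290.TI
open Finset
open Pool.Agent.H807R2.Dav
open Pool.Agent.TH212.DV

lemma inv_mult (D q : ℕ) (hq : 1 ≤ q) :
    ∑ d ∈ (Icc 1 D).filter (fun d => q ∣ d), (1 : ℝ) / d ≤ (1 + Real.log D) / q := by
  classical
  have hq0 : (0 : ℝ) < q := by exact_mod_cast hq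
  have hinj : Set.InjOn (fun d => d / q) ((Icc 1 D).filter (fun d => q ∣ d) : Finset ℕ) := by
    intro d hd d' hd' h
    rw [mem_coe, mem_filter] at hd hd'
    simp only at h
    rw [← Nat.div_mul_cancel hd.2, ← Nat.div_mul_cancel hd'.2, h]
  calc ∑ d ∈ (Icc 1 D).filter (fun d => q ∣ d), (1 : ℝ) / d
      = ∑ d ∈ (Icc 1 D).filter (fun d => q ∣ d), 1 / q * ((1 : ℝ) / ((d / q : ℕ) : ℝ)) := by
        apply sum_congr rfl
        intro d hd
        rw [mem_filter] at hd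
        have h1 : (d : ℝ) = ((d / q : ℕ) : ℝ) * q := by exact_mod_cast (Nat.div_mul_cancel hd.2).symm
        rw [h1]
        have h2 : ((((d / q : ℕ) : ℝ) * q)) = q * ((d / q : ℕ) : ℝ) := by ring
        rw [← h1]
        rw [one_div_mul_one_div, ← h2, ← h1]
    _ = 1 / q * ∑ k ∈ ((Icc 1 D).filter (fun d => q ∣ d)).image (fun d => d / q), (1 : ℝ) / k := by
        rw [← mul_sum, sum_image hinj]
    _ ≤ 1 / q * ∑ k ∈ Icc 1 D, (1 : ℝ) / k := by
        apply mul_le_mul_of_nonneg_left _ (by positivity)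
        apply sum_le_sum_of_subset_of_nonneg
        · intro k hk
          rw [mem_image] at hk
          obtain ⟨d, hd, rfl⟩ := hk
          rw [mem_filter, mem_Icc] at hd
          rw [mem_Icc]
          exact ⟨Nat.div_pos (Nat.le_of_dvd (by omega) hd.2) (by omega), (Nat.div_le_self _ _).trans hd.1.2⟩
        · intro k _ _
          positivity
    _ ≤ 1 / q * (1 + Real.log D) := mul_le_mul_of_nonneg_left (sum_inv_Icc D) (by positivity)
    _ = _ := by ring

lemma RR_abs (W : ℕ → ℝ) (w : ℝ) (hW : ∀ d, |W d| ≤ w) (D q : ℕ) (hq : 1 ≤ q) : |RR W D q| ≤ w * ((1 + Real.log D) / q) := by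
  have hw : 0 ≤ w := (abs_nonneg _).trans (hW 0)
  unfold RR
  refine (abs_sum_le_sum_abs _ _).trans ?_
  refine le_trans ?_ (mul_le_mul_of_nonneg_left (inv_mult D q hq) hw)
  rw [mul_sum]
  apply sum_le_sum
  intro d _
  rw [abs_div, Nat.abs_cast, mul_one_div]
  exact div_le_div_of_nonneg_right (hW d) (Nat.cast_nonneg _)

lemma FF_abs (W : ℕ → ℝ) (w : ℝ) (hW : ∀ d, |W d| ≤ w) (D n : ℕ) (hn : 1 ≤ n) : |FF W D n| ≤ w * n.divisors.card := by
  have hw : 0 ≤ w := (abs_nonneg _).trans (hW 0)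
  unfold FF
  refine (abs_sum_le_sum_abs _ _).trans ((sum_le_sum fun d _ => hW d).trans ?_)
  rw [sum_const, nsmul_eq_mul, mul_comm]
  apply mul_le_mul_of_nonneg_left _ hw
  have : ((Icc 1 D).filter (fun d => d ∣ n)).card ≤ n.divisors.card := by
    apply card_le_card
    intro d hd
    rw [mem_filter] at hd
    rw [Nat.mem_divisors]
    exact ⟨hd.2, by omega⟩
  exact_mod_cast this

lemma MM_abs (W : ℕ → ℝ) (w : ℝ) (hW : ∀ d, |W d| ≤ w) (D z n : ℕ) (hn : 1 ≤ n) :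
    |MM W D z (n : ℤ)| ≤ w * (1 + Real.log D) * (1 + Real.log z) * n.divisors.card := by
  classical
  have hw : 0 ≤ w := (abs_nonneg _).trans (hW 0)
  have hlD : 0 ≤ Real.log D := Real.log_natCast_nonneg D
  unfold MM
  refine (abs_sum_le_sum_abs _ _).trans ?_
  have h1 : ∀ q ∈ Icc 1 z, |RR W D q * (cz q (n : ℤ) : ℝ)| ≤
      w * (1 + Real.log D) * ∑ g ∈ n.divisors, (if g ∣ q then (g : ℝ) * (1 / q) else 0) := by
    intro q hq
    rw [mem_Icc] at hq
    rw [abs_mul]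
    have h2 := abs_cz_le_sum q n
    have h3 : ∑ g ∈ q.divisors.filter (fun g => g ∣ n), (g : ℝ) = ∑ g ∈ n.divisors, (if g ∣ q then (g : ℝ) else 0) := by
      rw [← sum_filter]
      apply sum_congr _ fun _ _ => rfl
      ext g
      simp only [mem_filter, Nat.mem_divisors]
      constructor
      · rintro ⟨⟨h4, _⟩, h5⟩
        exact ⟨⟨h5, by omega⟩, h4⟩
      · rintro ⟨⟨h4, _⟩, h5⟩
        exact ⟨⟨h5, by omega⟩, h4⟩
    rw [h3] at h2
    calc |RR W D q| * |(cz q (n : ℤ) : ℝ)| ≤ (w * ((1 + Real.log D) / q)) * ∑ g ∈ n.divisors, (if g ∣ q then (g : ℝ) else 0) := by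
          apply mul_le_mul (RR_abs W w hW D q hq.1) h2 (abs_nonneg _)
          positivity
      _ = _ := by
          rw [mul_sum, mul_sum]
          apply sum_congr rfl
          intro g _
          split_ifs
          · ring
          · ring
  refine (sum_le_sum h1).trans ?_
  rw [← mul_sum, sum_comm]
  have h4 : ∀ g ∈ n.divisors, ∑ q ∈ Icc 1 z, (if g ∣ q then (g : ℝ) * (1 / q) else 0) ≤ 1 + Real.log z := by
    intro g hg
    have hg1 : 1 ≤ g := Nat.pos_of_mem_divisors hg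
    have hg0 : (0 : ℝ) < g := by exact_mod_cast hg1
    rw [← sum_filter, ← mul_sum]
    have h5 := mul_le_mul_of_nonneg_left (inv_mult z g hg1) hg0.le
    refine h5.trans (le_of_eq ?_)
    field_simp
  calc w * (1 + Real.log D) * ∑ g ∈ n.divisors, ∑ q ∈ Icc 1 z, (if g ∣ q then (g : ℝ) * (1 / q) else 0)
      ≤ w * (1 + Real.log D) * ∑ g ∈ n.divisors, (1 + Real.log z) := by
        apply mul_le_mul_of_nonneg_left (sum_le_sum h4) (by positivity)
    _ = _ := by rw [sum_const, nsmul_eq_mul]; ring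

lemma MM_big (W : ℕ → ℝ) (D z n : ℕ) (h : D ≤ z) : MM W D z (n : ℤ) = FF W D n := by
  rw [FF_expand]
  unfold MM
  symm
  apply sum_subset (Icc_subset_Icc_right h)
  intro q hq hq'
  rw [mem_Icc] at hq hq'
  have : RR W D q = 0 := by
    unfold RR
    rw [filter_eq_empty_iff.2, sum_empty]
    intro d hd hdv
    rw [mem_Icc] at hd
    have := Nat.le_of_dvd (by omega) hdv
    omega
  rw [this, zero_mul]

theorem sup_bound (T U : ℕ) : ∃ K B0 : ℕ, ∀ E : ℕ, ∃ N₀ : ℕ, ∀ N : ℕ, N₀ ≤ N → ∀ z : ℕ, Real.log N ^ B0 ≤ z →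
    (z : ℝ) ≤ Real.log N ^ E → ∀ W : ℕ → ℝ, (∀ d, |W d| ≤ Real.log N ^ T) → ∀ D : ℕ, (D : ℝ) * Real.log N ^ K ≤ N →
    ∀ H : ℕ, H ≤ N → ∀ α : ℝ,
    ‖∑ n ∈ Icc 1 H, ((FF W D n - MM W D z n : ℝ) : ℂ) * ee ((n : ℝ) * α)‖ ≤ N / Real.log N ^ U := by
  refine ⟨U + T + 5, U + T + 4, fun E => ?_⟩
  obtain ⟨n1, h1⟩ := ev_log 216
  refine ⟨n1 + 3, fun N hN z hz1 hz2 W hW D hD H hH α => ?_⟩
  have a1 := h1 N (by omega)
  have hN1 : 1 ≤ N := by omega
  have hN0 : (0 : ℝ) < N := by exact_mod_cast hN1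
  obtain ⟨L, hL⟩ : ∃ L, L = Real.log (N : ℝ) := ⟨_, rfl⟩
  rw [← hL] at a1 hz1 hz2 hW hD ⊢
  have hL1 : 1 ≤ L := by linarith
  have hL0 : 0 < L := by linarith
  have hz : 1 ≤ z := by
    have : (1 : ℝ) ≤ z := (one_le_pow₀ hL1).trans hz1
    exact_mod_cast this
  have hz0 : (0 : ℝ) < z := by exact_mod_cast hz
  rcases le_total D z with hDz | hzD
  · have e0 : ∑ n ∈ Icc 1 H, ((FF W D n - MM W D z n : ℝ) : ℂ) * ee ((n : ℝ) * α) = 0 := by
      apply sum_eq_zero
      intro n _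
      rw [MM_big W D z n hDz]
      simp
    rw [e0, norm_zero]
    positivity
  have hD1 : 1 ≤ D := hz.trans hzD
  have hD0 : (0 : ℝ) < D := by exact_mod_cast hD1
  have hDN : (D : ℝ) ≤ N := by
    refine le_trans ?_ hD
    exact le_mul_of_one_le_right hD0.le (one_le_pow₀ hL1)
  have hlD0 : 0 ≤ Real.log D := Real.log_natCast_nonneg D
  have hlD : Real.log D ≤ L := by rw [hL]; exact Real.log_le_log hD0 hDN
  have hHr : (H : ℝ) ≤ N := by exact_mod_cast hH
  refine (sup_KK W D z H hzD α).trans ?_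
  have hT : ∀ q, 0 ≤ ∑ a ∈ Rd q, KK H (α + (a : ℝ) / q) := fun q => sum_nonneg fun a _ => KK_nonneg (Nat.cast_nonneg _) _
  have h2 : ∑ q ∈ Ioc z D, |RR W D q| * ∑ a ∈ Rd q, KK H (α + (a : ℝ) / q) ≤
      L ^ T * (1 + Real.log D) * ∑ q ∈ Ioc z D, (q : ℝ) ^ ((0 : ℝ) - 1) * ∑ a ∈ Rd q, KK H (α + (a : ℝ) / q) := by
    rw [mul_sum]
    apply sum_le_sum
    intro q hq
    rw [mem_Ioc] at hq
    have h3 := RR_abs W (L ^ T) hW D q (by omega)
    calc |RR W D q| * ∑ a ∈ Rd q, KK H (α + (a : ℝ) / q) ≤ (L ^ T * ((1 + Real.log D) / q)) * ∑ a ∈ Rd q, KK H (α + (a : ℝ) / q) :=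
          mul_le_mul_of_nonneg_right h3 (hT q)
      _ = _ := by
          rw [zero_sub, Real.rpow_neg_one]
          ring
  refine h2.trans ?_
  have h4 := dyadic D z H hz hzD α 0 le_rfl zero_le_one
  rw [zero_sub, Real.rpow_neg_one, add_zero, Real.rpow_one] at h4
  have h5 : (1 + 2 * Real.log D) * (12 * H * (z : ℝ)⁻¹ + 12 * (D : ℝ) * (2 + Real.log D)) ≤
      3 * L * (12 * N * (L ^ (U + T + 4))⁻¹ + 12 * (N * (L ^ (U + T + 5))⁻¹) * (2 * L)) := by
    have g1 : (z : ℝ)⁻¹ ≤ (L ^ (U + T + 4))⁻¹ := inv_anti₀ (by positivity) hz1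
    have g2 : (D : ℝ) ≤ N * (L ^ (U + T + 5))⁻¹ := by
      rw [← div_eq_mul_inv, le_div_iff₀ (by positivity)]
      exact hD
    have g3 : 1 + 2 * Real.log D ≤ 3 * L := by linarith
    have g4 : 2 + Real.log D ≤ 2 * L := by linarith
    gcongr
  rw [zero_sub]
  calc L ^ T * (1 + Real.log D) * ∑ q ∈ Ioc z D, (q : ℝ) ^ (-1 : ℝ) * ∑ a ∈ Rd q, KK H (α + (a : ℝ) / q)
      ≤ L ^ T * (2 * L) * (3 * L * (12 * N * (L ^ (U + T + 4))⁻¹ + 12 * (N * (L ^ (U + T + 5))⁻¹) * (2 * L))) := by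
        apply mul_le_mul _ (h4.trans h5) _ (by positivity)
        · apply mul_le_mul_of_nonneg_left _ (by positivity)
          linarith
        · apply sum_nonneg
          intro q _
          exact mul_nonneg (Real.rpow_nonneg (Nat.cast_nonneg _) _) (hT q)
    _ = 216 * (N / L ^ U) / L ^ 2 := by
        rw [show U + T + 5 = U + T + 4 + 1 by ring, pow_succ L (U + T + 4), show U + T + 4 = U + (T + 4) by ring, pow_add L U,
          pow_add L T]
        field_simp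
        ring
    _ ≤ N / L ^ U := by
        rw [div_le_iff₀ (by positivity), mul_comm]
        apply mul_le_mul_of_nonneg_left _ (by positivity)
        nlinarith

theorem l2_bound (T : ℕ) : ∃ N₀ : ℕ, ∀ N : ℕ, N₀ ≤ N → ∀ z : ℕ, z ≤ N → ∀ W : ℕ → ℝ, (∀ d, |W d| ≤ Real.log N ^ T) →
    ∀ D : ℕ, D ≤ N → ∀ H : ℕ, H ≤ N → ∑ n ∈ Icc 1 H, (FF W D n - MM W D z n) ^ 2 ≤ N * Real.log N ^ (2 * T + 8) := by
  obtain ⟨n1, h1⟩ := ev_log 800
  refine ⟨n1 + 3, fun N hN z hz W hW D hD H hH => ?_⟩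
  have a1 := h1 N (by omega)
  have hN1 : 1 ≤ N := by omega
  have hN0 : (0 : ℝ) < N := by exact_mod_cast hN1
  obtain ⟨L, hL⟩ : ∃ L, L = Real.log (N : ℝ) := ⟨_, rfl⟩
  rw [← hL] at a1 hW ⊢
  have hL1 : 1 ≤ L := by linarith
  have hL0 : 0 < L := by linarith
  have hln : ∀ k : ℕ, k ≤ N → Real.log k ≤ L := by
    intro k hk
    rcases Nat.eq_zero_or_pos k with h | h
    · rw [h, Nat.cast_zero, Real.log_zero]
      exact hL0.le
    · rw [hL]
      exact Real.log_le_log (by exact_mod_cast h) (by exact_mod_cast hk)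
  have hlD := hln D hD
  have hlz := hln z hz
  have hlH := hln H hH
  have hlD0 : 0 ≤ Real.log D := Real.log_natCast_nonneg D
  have hlz0 : 0 ≤ Real.log z := Real.log_natCast_nonneg z
  have hlH0 : 0 ≤ Real.log H := Real.log_natCast_nonneg H
  have hHr : (H : ℝ) ≤ N := by exact_mod_cast hH
  have hpt : ∀ n ∈ Icc 1 H, (FF W D n - MM W D z n) ^ 2 ≤ (5 * L ^ (T + 2)) ^ 2 * (n.divisors.card : ℝ) ^ 2 := by
    intro n hn
    rw [mem_Icc] at hn
    have e1 := FF_abs W (L ^ T) hW D n hn.1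
    have e2 := MM_abs W (L ^ T) hW D z n hn.1
    have e3 : |FF W D n - MM W D z n| ≤ 5 * L ^ (T + 2) * n.divisors.card := by
      refine (abs_sub _ _).trans ?_
      have hc : (0 : ℝ) ≤ n.divisors.card := Nat.cast_nonneg _
      have e4 : L ^ T * (n.divisors.card : ℝ) ≤ L ^ (T + 2) * n.divisors.card :=
        mul_le_mul_of_nonneg_right (pow_le_pow_right₀ hL1 (by omega)) hc
      have e5 : L ^ T * (1 + Real.log D) * (1 + Real.log z) * (n.divisors.card : ℝ) ≤ L ^ T * (2 * L) * (2 * L) * n.divisors.card := by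
        gcongr <;> linarith
      have e6 : L ^ T * (2 * L) * (2 * L) * (n.divisors.card : ℝ) = 4 * L ^ (T + 2) * n.divisors.card := by
        rw [pow_add]
        ring
      linarith
    rw [← sq_abs, ← mul_pow]
    exact pow_le_pow_left₀ (abs_nonneg _) e3 2
  refine (sum_le_sum hpt).trans ?_
  rw [← mul_sum]
  have e7 := Pool.Agent.W93.LV.tau_sq H
  calc (5 * L ^ (T + 2)) ^ 2 * ∑ n ∈ Icc 1 H, (n.divisors.card : ℝ) ^ 2 ≤ (5 * L ^ (T + 2)) ^ 2 * (N * (2 * L) ^ 3) := by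
        apply mul_le_mul_of_nonneg_left _ (by positivity)
        refine e7.trans ?_
        apply mul_le_mul hHr _ (by positivity) hN0.le
        exact pow_le_pow_left₀ (by linarith) (by linarith) 3
    _ = 200 * N * L ^ (2 * T + 7) := by
        have e8 : L ^ (2 * T + 7) = (L ^ (T + 2)) ^ 2 * L ^ 3 := by rw [← pow_mul, ← pow_add]; congr 1; ring
        rw [e8]
        ring
    _ ≤ L * N * L ^ (2 * T + 7) := by
        gcongr
        linarith
    _ = _ := by
        rw [show 2 * T + 8 = 2 * T + 7 + 1 by ring, pow_succ]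
        ring

end Pool.Agent.V11290.TI
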