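import Pool.Agent.V11290.TI.A2
import Pool.Agent.W125.EC.Tot

set_option autoImplicit false

/-! The local factors for a residue `a`, and families: few members have many divisors in a weighted sense. -/

namespace Pool.Agent.V11290.TI
open Finset
open Pool.Agent.TH212.DV
open Pool.Agent.H373R2.T7 (energy)

/-- `e / φ(e)` if `e` is coprime to `a`, and `0` otherwise -/
noncomputable def Fv (a e : ℕ) : ℝ := if e.Coprime a then (e : ℝ) / Nat.totient e else 0

/-- the Moebius inverse of `Fv a` -/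
noncomputable def ha (a r : ℕ) : ℝ := ∑ d ∈ r.divisors, (ArithmeticFunction.moebius (r / d) : ℝ) * Fv a d

lemma ha_anti (a r : ℕ) : ∑ x ∈ r.divisorsAntidiagonal, (ArithmeticFunction.moebius x.1 : ℝ) * Fv a x.2 = ha a r := by
  unfold ha
  exact Nat.sum_divisorsAntidiagonal' (fun u v => (ArithmeticFunction.moebius u : ℝ) * Fv a v)

lemma ha_sum (a q : ℕ) (hq : 1 ≤ q) : ∑ r ∈ q.divisors, ha a r = Fv a q := by
  have h := (ArithmeticFunction.sum_eq_iff_sum_mul_moebius_eq (R := ℝ) (f := ha a) (g := Fv a)).2 (by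
    intro n _
    exact ha_anti a n)
  exact h q (by omega)

/-- the first factor -/
noncomputable def al (a : ℕ) : ArithmeticFunction ℝ :=
  ⟨fun j => if j ∣ a then (ArithmeticFunction.moebius j : ℝ) else 0, by simp⟩

/-- the second factor -/
noncomputable def be (a : ℕ) : ArithmeticFunction ℝ :=
  ⟨fun k => if k.Coprime a ∧ Squarefree k then 1 / (Nat.totient k : ℝ) else 0, by simp⟩

lemma zeta_al (a e : ℕ) (ha1 : 1 ≤ a) (he : 1 ≤ e) :
    ∑ j ∈ e.divisors, al a j = if e.Coprime a then 1 else 0 := by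
  have h1 : ∑ j ∈ e.divisors, al a j = ∑ j ∈ (Nat.gcd e a).divisors, (ArithmeticFunction.moebius j : ℝ) := by
    have h2 : ∑ j ∈ e.divisors, al a j = ∑ j ∈ e.divisors.filter (fun j => j ∣ a), (ArithmeticFunction.moebius j : ℝ) := by
      rw [sum_filter]
      rfl
    rw [h2]
    apply sum_congr _ fun _ _ => rfl
    ext j
    simp only [mem_filter, Nat.mem_divisors, Nat.dvd_gcd_iff]
    constructor
    · rintro ⟨⟨h3, _⟩, h4⟩
      exact ⟨⟨h3, h4⟩, (Nat.gcd_pos_of_pos_left _ (by omega)).ne'⟩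
    · rintro ⟨⟨h3, h4⟩, _⟩
      exact ⟨⟨h3, by omega⟩, h4⟩
  rw [h1]
  have h4 : ∑ j ∈ (Nat.gcd e a).divisors, ArithmeticFunction.moebius j = if Nat.gcd e a = 1 then 1 else 0 := by
    rw [← ArithmeticFunction.coe_zeta_mul_apply, ArithmeticFunction.coe_zeta_mul_moebius, ArithmeticFunction.one_apply]
  have h5 : ∑ j ∈ (Nat.gcd e a).divisors, (ArithmeticFunction.moebius j : ℝ) = if Nat.gcd e a = 1 then 1 else 0 := by
    have : ((∑ j ∈ (Nat.gcd e a).divisors, ArithmeticFunction.moebius j : ℤ) : ℝ) = ((if Nat.gcd e a = 1 then 1 else 0 : ℤ) : ℝ) := by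
      rw [h4]
    push_cast at this
    rw [this]
  rw [h5]

lemma be_sum (a n : ℕ) (ha1 : 1 ≤ a) (hn : 1 ≤ n) :
    ∑ x ∈ n.divisorsAntidiagonal, (∑ j ∈ x.1.divisors, al a j) * be a x.2 = Fv a n := by
  have h1 : ∑ x ∈ n.divisorsAntidiagonal, (∑ j ∈ x.1.divisors, al a j) * be a x.2 =
      ∑ x ∈ n.divisorsAntidiagonal, (if n.Coprime a then (if Squarefree x.2 then 1 / (Nat.totient x.2 : ℝ) else 0) else 0) := by
    apply sum_congr rfl
    intro x hx
    rw [Nat.mem_divisorsAntidiagonal] at hx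
    have hx1 : 1 ≤ x.1 := Nat.pos_of_ne_zero (by rintro h; rw [h, zero_mul] at hx; omega)
    rw [zeta_al a x.1 ha1 hx1]
    show _ * (if x.2.Coprime a ∧ Squarefree x.2 then 1 / (Nat.totient x.2 : ℝ) else 0) = _
    have h2 : n.Coprime a ↔ x.1.Coprime a ∧ x.2.Coprime a := by
      rw [← hx.1]
      exact Nat.coprime_mul_iff_left
    by_cases h3 : x.1.Coprime a
    · by_cases h4 : x.2.Coprime a
      · rw [if_pos h3, if_pos (h2.2 ⟨h3, h4⟩), one_mul]
        by_cases h5 : Squarefree x.2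
        · rw [if_pos ⟨h4, h5⟩, if_pos h5]
        · rw [if_neg (show ¬(x.2.Coprime a ∧ Squarefree x.2) from fun h => h5 h.2), if_neg h5]
      · rw [if_neg (show ¬(x.2.Coprime a ∧ Squarefree x.2) from fun h => h4 h.1), mul_zero,
          if_neg (show ¬ n.Coprime a from fun h => h4 (h2.1 h).2)]
    · rw [if_neg h3, zero_mul, if_neg (show ¬ n.Coprime a from fun h => h3 (h2.1 h).1)]
  rw [h1]
  unfold Fv
  split_ifs with h
  · rw [Nat.sum_divisorsAntidiagonal' (fun _ v => if Squarefree v then 1 / (Nat.totient v : ℝ) else 0),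
      Pool.Agent.W125.EC.div_totient n hn, sum_filter]
  · rw [sum_const_zero]

lemma ha_eq (a r : ℕ) (ha1 : 1 ≤ a) (hr : 1 ≤ r) : ha a r = (al a * be a) r := by
  have h := (ArithmeticFunction.sum_eq_iff_sum_mul_moebius_eq (R := ℝ) (f := fun n => (al a * be a) n) (g := Fv a)).1 (by
    intro n hn
    have h1 : ∑ i ∈ n.divisors, (al a * be a) i = ((ArithmeticFunction.zeta : ArithmeticFunction ℝ) * (al a * be a)) n :=
      (ArithmeticFunction.coe_zeta_mul_apply).symm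
    rw [h1, ← mul_assoc, ArithmeticFunction.mul_apply, ← be_sum a n ha1 (by omega)]
    apply sum_congr rfl
    intro x _
    rw [ArithmeticFunction.coe_zeta_mul_apply])
  rw [← ha_anti a r]
  exact h r (by omega)

lemma ha_abs (a r : ℕ) (ha1 : 1 ≤ a) (hr : 1 ≤ r) :
    |ha a r| ≤ ∑ x ∈ r.divisorsAntidiagonal, (if x.1 ∣ a then 1 / (Nat.totient x.2 : ℝ) else 0) := by
  rw [ha_eq a r ha1 hr, ArithmeticFunction.mul_apply]
  refine (abs_sum_le_sum_abs _ _).trans (sum_le_sum fun x hx => ?_)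
  show |(if x.1 ∣ a then (ArithmeticFunction.moebius x.1 : ℝ) else 0) * (if x.2.Coprime a ∧ Squarefree x.2 then 1 / (Nat.totient x.2 : ℝ) else 0)| ≤ _
  rw [abs_mul]
  have h0 : (0 : ℝ) ≤ 1 / (Nat.totient x.2 : ℝ) := by positivity
  have h2 : |(ArithmeticFunction.moebius x.1 : ℝ)| ≤ 1 := by
    have := ArithmeticFunction.abs_moebius_le_one (n := x.1)
    exact_mod_cast this
  split_ifs
  · rw [abs_of_nonneg h0]
    exact mul_le_of_le_one_left h0 h2
  · rw [abs_zero, mul_zero]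
    exact h0
  · rw [abs_zero, zero_mul]
  · rw [abs_zero, zero_mul]

/-- the weighted sum of the divisors of `a` in `(y, D]` -/
noncomputable def TT (y D : ℕ) (a : ℤ) : ℝ := ∑ j ∈ Ioc y D, (if (j : ℤ) ∣ a then 1 / (j : ℝ) else 0)

lemma inv_phi_tail (K D : ℕ) (hK : 1 ≤ K) : ∑ k ∈ Ioc K D, 1 / ((k : ℝ) * Nat.totient k) ≤ (1 + Real.log D) ^ 2 / K := by
  have hK0 : (0 : ℝ) < K := by exact_mod_cast hK
  have h1 : ∀ k ∈ Ioc K D, 1 / ((k : ℝ) * Nat.totient k) ≤ 1 / K * ((k.divisors.card : ℝ) / k) := by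
    intro k hk
    rw [mem_Ioc] at hk
    have hk0 : (0 : ℝ) < k := by exact_mod_cast (by omega : 0 < k)
    have h2 := Pool.Agent.W93.LV.inv_phi_le k (by omega)
    have h3 : (1 : ℝ) / k ≤ 1 / K := one_div_le_one_div_of_le hK0 (by exact_mod_cast hk.1.le)
    rw [← one_div_mul_one_div]
    exact mul_le_mul h3 h2 (by positivity) (by positivity)
  refine (sum_le_sum h1).trans ?_
  rw [← mul_sum]
  have h4 : ∑ k ∈ Ioc K D, (k.divisors.card : ℝ) / k ≤ ∑ k ∈ Icc 1 D, (k.divisors.card : ℝ) / k := by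
    apply sum_le_sum_of_subset_of_nonneg
    · intro k hk
      rw [mem_Ioc] at hk
      rw [mem_Icc]
      omega
    · intro k _ _
      positivity
  have h5 := h4.trans (Pool.Agent.W93.LV.tau_div_sum D)
  calc 1 / (K : ℝ) * ∑ k ∈ Ioc K D, (k.divisors.card : ℝ) / k ≤ 1 / K * (1 + Real.log D) ^ 2 :=
        mul_le_mul_of_nonneg_left h5 (by positivity)
    _ = _ := by ring

lemma inv_phi_all (D : ℕ) : ∑ k ∈ Icc 1 D, 1 / ((k : ℝ) * Nat.totient k) ≤ (1 + Real.log D) ^ 2 := by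
  have h1 : ∀ k ∈ Icc 1 D, 1 / ((k : ℝ) * Nat.totient k) ≤ (k.divisors.card : ℝ) / k := by
    intro k hk
    rw [mem_Icc] at hk
    have hk0 : (1 : ℝ) ≤ k := by exact_mod_cast hk.1
    have h2 := Pool.Agent.W93.LV.inv_phi_le k (by omega)
    refine le_trans ?_ h2
    have h3 : (0 : ℝ) < Nat.totient k := by exact_mod_cast Nat.totient_pos.2 (by omega)
    apply one_div_le_one_div_of_le h3
    exact le_mul_of_one_le_left h3.le hk0
  exact (sum_le_sum h1).trans (Pool.Agent.W93.LV.tau_div_sum D)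

/-- the tail of the local factors -/
theorem ha_tail (a y z D : ℕ) (ha1 : 1 ≤ a) (hy : 1 ≤ y) (hyz : y * y ≤ z) :
    ∑ r ∈ Ioc z D, |ha a r| / r ≤ (1 + Real.log D) ^ 3 / y + (1 + Real.log D) ^ 2 * TT y D a := by
  classical
  have hlD : 0 ≤ Real.log D := Real.log_natCast_nonneg D
  have hy0 : (0 : ℝ) < y := by exact_mod_cast hy
  obtain ⟨w, hw⟩ : ∃ w : ℕ → ℕ → ℝ, w = fun (j k : ℕ) => if j ∣ a then 1 / (j : ℝ) * (1 / ((k : ℝ) * Nat.totient k)) else 0 := ⟨_, rfl⟩
  have hw0 : ∀ j k, 0 ≤ w j k := by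
    intro j k
    rw [hw]
    simp only
    split_ifs <;> positivity
  have h1 : ∀ r ∈ Ioc z D, |ha a r| / r ≤ ∑ x ∈ r.divisorsAntidiagonal, w x.1 x.2 := by
    intro r hr
    rw [mem_Ioc] at hr
    refine (div_le_div_of_nonneg_right (ha_abs a r ha1 (by omega)) (Nat.cast_nonneg _)).trans (le_of_eq ?_)
    rw [sum_div]
    apply sum_congr rfl
    intro x hx
    rw [Nat.mem_divisorsAntidiagonal] at hx
    have e1 : (r : ℝ) = x.1 * x.2 := by rw [← hx.1]; push_cast; ring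
    rw [hw, e1]
    simp only
    split_ifs
    · rw [one_div_mul_one_div, div_div]
      congr 1
      ring
    · rw [zero_div]
  refine (sum_le_sum h1).trans ?_
  have h2 : ∑ r ∈ Ioc z D, ∑ x ∈ r.divisorsAntidiagonal, w x.1 x.2 ≤
      ∑ x ∈ (Icc 1 D ×ˢ Icc 1 D).filter (fun x : ℕ × ℕ => z < x.1 * x.2), w x.1 x.2 := by
    rw [← sum_biUnion]
    · apply sum_le_sum_of_subset_of_nonneg
      · intro x hx
        rw [mem_biUnion] at hx
        obtain ⟨r, hr, hx⟩ := hx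
        rw [mem_Ioc] at hr
        rw [Nat.mem_divisorsAntidiagonal] at hx
        have hx1 : 1 ≤ x.1 := Nat.pos_of_ne_zero (by rintro h; rw [h, zero_mul] at hx; omega)
        have hx2 : 1 ≤ x.2 := Nat.pos_of_ne_zero (by rintro h; rw [h, mul_zero] at hx; omega)
        have hx3 : x.1 ≤ r := by rw [← hx.1]; exact Nat.le_mul_of_pos_right _ hx2
        have hx4 : x.2 ≤ r := by rw [← hx.1]; exact Nat.le_mul_of_pos_left _ hx1
        rw [mem_filter, mem_product, mem_Icc, mem_Icc]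
        refine ⟨⟨⟨hx1, by omega⟩, hx2, by omega⟩, by omega⟩
      · intro x _ _
        exact hw0 _ _
    · intro r _ r' _ hne
      rw [Function.onFun, disjoint_left]
      intro x hx hx'
      rw [Nat.mem_divisorsAntidiagonal] at hx hx'
      exact hne (hx.1.symm.trans hx'.1)
  refine h2.trans ?_
  have h3 : (Icc 1 D ×ˢ Icc 1 D).filter (fun x : ℕ × ℕ => z < x.1 * x.2) ⊆ (Icc 1 D ×ˢ Ioc y D) ∪ (Ioc y D ×ˢ Icc 1 D) := by
    intro x hx
    rw [mem_filter, mem_product, mem_Icc, mem_Icc] at hx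
    rw [mem_union, mem_product, mem_product, mem_Ioc, mem_Ioc, mem_Icc, mem_Icc]
    rcases le_or_gt x.1 y with h | h
    · refine Or.inl ⟨hx.1.1, ?_, hx.1.2.2⟩
      by_contra hcon
      have h4 : x.1 * x.2 ≤ y * y := Nat.mul_le_mul h (by omega)
      have := hx.2
      omega
    · exact Or.inr ⟨⟨h, hx.1.1.2⟩, hx.1.2⟩
  refine (sum_le_sum_of_subset_of_nonneg h3 fun x _ _ => hw0 _ _).trans ?_
  have h4 := sum_union_inter (s₁ := Icc 1 D ×ˢ Ioc y D) (s₂ := Ioc y D ×ˢ Icc 1 D) (f := fun x : ℕ × ℕ => w x.1 x.2)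
  have h5 : 0 ≤ ∑ x ∈ (Icc 1 D ×ˢ Ioc y D) ∩ (Ioc y D ×ˢ Icc 1 D), w x.1 x.2 := sum_nonneg fun x _ => hw0 _ _
  have h6 : ∑ x ∈ Icc 1 D ×ˢ Ioc y D, w x.1 x.2 ≤ (1 + Real.log D) ^ 3 / y := by
    rw [sum_product]
    have g1 : ∀ j ∈ Icc 1 D, ∑ k ∈ Ioc y D, w j k ≤ 1 / (j : ℝ) * ((1 + Real.log D) ^ 2 / y) := by
      intro j _
      calc ∑ k ∈ Ioc y D, w j k ≤ ∑ k ∈ (Ioc y D : Finset ℕ), 1 / (j : ℝ) * (1 / ((k : ℝ) * Nat.totient k)) := by
            apply sum_le_sum
            intro k _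
            rw [hw]
            simp only
            split_ifs
            · exact le_rfl
            · positivity
        _ = 1 / (j : ℝ) * ∑ k ∈ (Ioc y D : Finset ℕ), 1 / ((k : ℝ) * Nat.totient k) := by rw [mul_sum]
        _ ≤ _ := mul_le_mul_of_nonneg_left (inv_phi_tail y D hy) (by positivity)
    refine (sum_le_sum g1).trans ?_
    rw [← sum_mul]
    calc (∑ j ∈ Icc 1 D, 1 / (j : ℝ)) * ((1 + Real.log D) ^ 2 / y) ≤ (1 + Real.log D) * ((1 + Real.log D) ^ 2 / y) :=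
          mul_le_mul_of_nonneg_right (sum_inv_Icc D) (by positivity)
      _ = _ := by ring
  have h7 : ∑ x ∈ Ioc y D ×ˢ Icc 1 D, w x.1 x.2 ≤ (1 + Real.log D) ^ 2 * TT y D a := by
    rw [sum_product]
    unfold TT
    rw [mul_sum]
    apply sum_le_sum
    intro j _
    rw [hw]
    simp only
    by_cases hj : j ∣ a
    · have hj' : (j : ℤ) ∣ (a : ℤ) := by exact_mod_cast hj
      simp only [if_pos hj, if_pos hj']
      rw [← mul_sum, mul_comm]
      exact mul_le_mul_of_nonneg_right (inv_phi_all D) (by positivity)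
    · have hj' : ¬ (j : ℤ) ∣ (a : ℤ) := by
        intro h
        exact hj (by exact_mod_cast h)
      simp only [if_neg hj, if_neg hj', sum_const_zero, mul_zero]
      exact le_rfl
  linarith

end Pool.Agent.V11290.TI
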