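import Pool.Agent.V11290.TI.A3

set_option autoImplicit false

/-! Families of nearly minimal energy: the members divisible by a given modulus. -/

namespace Pool.Agent.V11290.TI
open Finset
open Pool.Agent.TH212.DV
open Pool.Agent.H373R2.T7 (energy)

theorem energy_class (p x : ℕ) (s : ℕ → ℤ) (r M : ℕ) (hr : 1 ≤ r) (hs : ∀ m ∈ Icc 1 x, |s m| ≤ M) :
    ((((Icc 1 x).filter (fun m => (r : ℤ) ∣ s m)).card : ℝ)) ^ (2 * p) ≤ (2 * (p * M / r) + 1) * energy p x s := by
  classical
  obtain ⟨S, hS⟩ : ∃ S, S = (Icc 1 x).filter (fun m => (r : ℤ) ∣ s m) := ⟨_, rfl⟩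
  rw [← hS]
  obtain ⟨T, hT⟩ : ∃ T : Finset (Fin p → ℕ), T = Fintype.piFinset (fun _ => S) := ⟨_, rfl⟩
  have hTc : T.card = S.card ^ p := by
    rw [hT, Fintype.card_piFinset, prod_const, card_univ, Fintype.card_fin]
  obtain ⟨f, hf⟩ : ∃ f : (Fin p → ℕ) → ℤ, f = fun v => (∑ i, s (v i)) / r := ⟨_, rfl⟩
  obtain ⟨K, hK⟩ : ∃ K : ℕ, K = p * M / r := ⟨_, rfl⟩
  have hr0 : (0 : ℤ) < r := by exact_mod_cast hr
  have hdv : ∀ v ∈ T, (r : ℤ) ∣ ∑ i, s (v i) := by
    intro v hv
    rw [hT, Fintype.mem_piFinset] at hv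
    apply dvd_sum
    intro i _
    have := hv i
    rw [hS, mem_filter] at this
    exact this.2
  have hfs : ∀ v ∈ T, ∑ i, s (v i) = r * f v := by
    intro v hv
    rw [hf]
    exact (Int.mul_ediv_cancel' (hdv v hv)).symm
  have hmaps : ∀ v ∈ T, f v ∈ Icc (-(K : ℤ)) K := by
    intro v hv
    have h1 : |∑ i, s (v i)| ≤ p * M := by
      refine (abs_sum_le_sum_abs _ _).trans ?_
      have h2 : ∀ i ∈ (univ : Finset (Fin p)), |s (v i)| ≤ M := by
        intro i _
        rw [hT, Fintype.mem_piFinset] at hv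
        have := hv i
        rw [hS, mem_filter] at this
        exact hs _ this.1
      refine (sum_le_sum h2).trans ?_
      rw [sum_const, card_univ, Fintype.card_fin, nsmul_eq_mul]
    rw [hfs v hv, abs_mul, abs_of_pos hr0] at h1
    have h3 : (f v).natAbs ≤ K := by
      rw [hK, Nat.le_div_iff_mul_le (by omega)]
      have h4 : (((f v).natAbs * r : ℕ) : ℤ) ≤ ((p * M : ℕ) : ℤ) := by
        push_cast
        rw [mul_comm]
        exact h1
      exact_mod_cast h4
    rw [mem_Icc]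
    omega
  have h1 : T.card = ∑ v ∈ Icc (-(K : ℤ)) K, (T.filter (fun t => f t = v)).card :=
    card_eq_sum_card_fiberwise (f := f) hmaps
  have h2 : ((T.card : ℝ)) ^ 2 ≤ (Icc (-(K : ℤ)) K).card * ∑ v ∈ Icc (-(K : ℤ)) K, ((T.filter (fun t => f t = v)).card : ℝ) ^ 2 := by
    rw [h1]
    push_cast
    exact sq_sum_le_card_mul_sum_sq
  have h3 : ∑ v ∈ Icc (-(K : ℤ)) K, (T.filter (fun t => f t = v)).card ^ 2 ≤ energy p x s := by
    have e1 : ∑ v ∈ Icc (-(K : ℤ)) K, (T.filter (fun t => f t = v)).card ^ 2 =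
        ((Icc (-(K : ℤ)) K).biUnion (fun v => (T.filter (fun t => f t = v)) ×ˢ (T.filter (fun t => f t = v)))).card := by
      rw [card_biUnion]
      · apply sum_congr rfl
        intro v _
        rw [card_product, sq]
      · intro v _ v' _ hne
        rw [Function.onFun, disjoint_left]
        intro q hq hq'
        rw [mem_product, mem_filter, mem_filter] at hq hq'
        exact hne (hq.1.2.symm.trans hq'.1.2)
    rw [e1]
    unfold energy
    apply card_le_card
    intro q hq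
    rw [mem_biUnion] at hq
    obtain ⟨v, _, hq⟩ := hq
    rw [mem_product, mem_filter, mem_filter] at hq
    have hsub : ∀ t ∈ T, t ∈ Fintype.piFinset fun _ : Fin p => Icc 1 x := by
      intro t ht
      rw [hT, Fintype.mem_piFinset] at ht
      rw [Fintype.mem_piFinset]
      intro i
      have := ht i
      rw [hS, mem_filter] at this
      exact this.1
    rw [mem_filter, mem_product]
    refine ⟨⟨hsub _ hq.1.1, hsub _ hq.2.1⟩, ?_⟩
    rw [hfs _ hq.1.1, hfs _ hq.2.1, hq.1.2, hq.2.2]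
  have h4 : ((Icc (-(K : ℤ)) K).card : ℝ) ≤ 2 * (p * M / r) + 1 := by
    rw [Int.card_Icc]
    have e2 : ((K : ℤ) + 1 - -(K : ℤ)).toNat = 2 * K + 1 := by omega
    rw [e2]
    push_cast
    have e3 : (K : ℝ) ≤ (p * M : ℝ) / r := by
      rw [hK]
      have := Nat.cast_div_le (α := ℝ) (m := p * M) (n := r)
      push_cast at this
      exact this
    linarith
  have h5 : (∑ v ∈ Icc (-(K : ℤ)) K, ((T.filter (fun t => f t = v)).card : ℝ) ^ 2) ≤ energy p x s := by exact_mod_cast h3
  calc (S.card : ℝ) ^ (2 * p) = (T.card : ℝ) ^ 2 := by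
        rw [hTc]
        push_cast
        rw [← pow_mul, mul_comm]
    _ ≤ _ := h2
    _ ≤ _ := mul_le_mul h4 h5 (by positivity) (by positivity)

/-- the mean of the weighted sum of the divisors -/
theorem tt_mean (p B C V : ℕ) (hp : 1 ≤ p) : ∃ B1 : ℕ, ∃ N₀ : ℕ, ∀ N : ℕ, N₀ ≤ N → ∀ (x : ℕ) (s : ℕ → ℤ),
    (∀ m ∈ Icc 1 x, |s m| ≤ B * N) → (energy p x s : ℝ) * N ≤ Real.log N ^ C * (x : ℝ) ^ (2 * p) →
    ∀ y : ℕ, Real.log N ^ B1 ≤ y → ∀ D : ℕ, D ≤ N → ∑ m ∈ Icc 1 x, TT y D (s m) ≤ x / Real.log N ^ V := by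
  classical
  refine ⟨C + 1 + 2 * p * (V + 2), ?_⟩
  obtain ⟨n1, h1⟩ := ev_log (2 * p * B + 3 : ℝ)
  refine ⟨n1 + 3, fun N hN x s hs hE y hy D hD => ?_⟩
  have a1 := h1 N (by omega)
  have hN1 : 1 ≤ N := by omega
  have hN0 : (0 : ℝ) < N := by exact_mod_cast hN1
  obtain ⟨L, hL⟩ : ∃ L, L = Real.log (N : ℝ) := ⟨_, rfl⟩
  rw [← hL] at a1 hE hy ⊢
  have hpB : (0 : ℝ) ≤ 2 * p * B := by positivity
  have hL1 : 1 ≤ L := by linarith
  have hL3 : 3 ≤ L := by linarith
  have hL0 : 0 < L := by linarith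
  have hx0 : (0 : ℝ) ≤ x := Nat.cast_nonneg _
  have hy1 : (1 : ℝ) ≤ y := (one_le_pow₀ hL1).trans hy
  have hcl : ∀ j ∈ Ioc y D, (((Icc 1 x).filter (fun m => (j : ℤ) ∣ s m)).card : ℝ) ≤ x / L ^ (V + 2) := by
    intro j hj
    rw [mem_Ioc] at hj
    have hj0 : (0 : ℝ) < j := by exact_mod_cast (by omega : 0 < j)
    have hjN : (j : ℝ) ≤ N := by exact_mod_cast (hj.2.trans hD)
    have hyj : (y : ℝ) ≤ j := by exact_mod_cast hj.1.le
    have e1 := energy_class p x s j (B * N) (by omega) (by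
      intro m hm
      refine (hs m hm).trans (le_of_eq ?_)
      push_cast
      ring)
    push_cast at e1
    obtain ⟨c, hc⟩ : ∃ c : ℝ, c = (((Icc 1 x).filter (fun m => (j : ℤ) ∣ s m)).card : ℝ) := ⟨_, rfl⟩
    rw [← hc] at e1 ⊢
    have hc0 : 0 ≤ c := by rw [hc]; exact Nat.cast_nonneg _
    have hE' : (energy p x s : ℝ) ≤ L ^ C * (x : ℝ) ^ (2 * p) / N := by
      rw [le_div_iff₀ hN0]
      exact hE
    have e2 : c ^ (2 * p) ≤ (x / L ^ (V + 2)) ^ (2 * p) := by
      calc c ^ (2 * p) ≤ (2 * (p * (B * N) / j) + 1) * energy p x s := e1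
        _ ≤ (2 * (p * (B * N) / j) + N / j) * (L ^ C * (x : ℝ) ^ (2 * p) / N) := by
            apply mul_le_mul _ hE' (Nat.cast_nonneg _) (by positivity)
            have : (1 : ℝ) ≤ N / j := by rwa [le_div_iff₀ hj0, one_mul]
            linarith
        _ = (2 * p * B + 1) * (L ^ C * (x : ℝ) ^ (2 * p)) / j := by
            field_simp
        _ ≤ L * (L ^ C * (x : ℝ) ^ (2 * p)) / L ^ (C + 1 + 2 * p * (V + 2)) := by
            apply div_le_div₀ (by positivity) _ (by positivity) (hy.trans hyj)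
            exact mul_le_mul_of_nonneg_right (by linarith) (by positivity)
        _ = (x / L ^ (V + 2)) ^ (2 * p) := by
            rw [div_pow, ← pow_mul, pow_add L (C + 1) (2 * p * (V + 2)), pow_succ L C, show (V + 2) * (2 * p) = 2 * p * (V + 2) by ring]
            field_simp
    exact (pow_le_pow_iff_left₀ hc0 (by positivity) (by omega)).1 e2
  calc ∑ m ∈ Icc 1 x, TT y D (s m) = ∑ j ∈ Ioc y D, 1 / (j : ℝ) * (((Icc 1 x).filter (fun m => (j : ℤ) ∣ s m)).card : ℝ) := by
        unfold TT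
        rw [sum_comm]
        apply sum_congr rfl
        intro j _
        rw [card_filter]
        push_cast
        rw [mul_sum]
        apply sum_congr rfl
        intro m _
        split_ifs <;> simp
    _ ≤ ∑ j ∈ Ioc y D, 1 / (j : ℝ) * (x / L ^ (V + 2)) := by
        apply sum_le_sum
        intro j hj
        exact mul_le_mul_of_nonneg_left (hcl j hj) (by positivity)
    _ = (∑ j ∈ Ioc y D, 1 / (j : ℝ)) * (x / L ^ (V + 2)) := by rw [sum_mul]
    _ ≤ (2 * L) * (x / L ^ (V + 2)) := by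
        apply mul_le_mul_of_nonneg_right _ (by positivity)
        have e3 : ∑ j ∈ Ioc y D, 1 / (j : ℝ) ≤ ∑ j ∈ Icc 1 D, 1 / (j : ℝ) := by
          apply sum_le_sum_of_subset_of_nonneg
          · intro j hj
            rw [mem_Ioc] at hj
            rw [mem_Icc]
            omega
          · intro j _ _
            positivity
        refine (e3.trans (sum_inv_Icc D)).trans ?_
        have e4 : Real.log D ≤ L := by
          rcases Nat.eq_zero_or_pos D with h | h
          · rw [h, Nat.cast_zero, Real.log_zero]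
            exact hL0.le
          · rw [hL]
            exact Real.log_le_log (by exact_mod_cast h) (by exact_mod_cast hD)
        linarith
    _ = 2 * (x / L ^ V) / L := by
        rw [pow_add L V 2]
        field_simp
    _ ≤ x / L ^ V := by
        rw [div_le_iff₀ hL0, mul_comm (x / L ^ V) L]
        apply mul_le_mul_of_nonneg_right (by linarith) (by positivity)

end Pool.Agent.V11290.TI
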