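import Pool.Agent.V11290.TI.A4

set_option autoImplicit false

/-! Comparison of the model with `G / φ(q)` for functions satisfying a Siegel-Walfisz condition. -/

namespace Pool.Agent.V11290.TI
open Finset
open Pool.Agent.TH212.DV

/-- the sum of `g` over the `n ≤ X` with `n ≡ a (mod q)` -/
noncomputable def Sq (g : ℕ → ℝ) (X q : ℕ) (a : ℤ) : ℝ := ∑ n ∈ Icc 1 X, (if (q : ℤ) ∣ (n : ℤ) - a then g n else 0)

/-- the expected value -/
noncomputable def Ex (G : ℝ) (q : ℕ) (a : ℤ) : ℝ := if q.Coprime a.natAbs then G / Nat.totient q else 0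

/-- the Siegel-Walfisz condition -/
def SW (g : ℕ → ℝ) (G : ℝ) (X z : ℕ) (δ : ℝ) : Prop := ∀ r : ℕ, 1 ≤ r → r ≤ z → ∀ c : ℤ, |Sq g X r c - Ex G r c| ≤ δ

/-- the weighted sum of the differences -/
noncomputable def Er (W g : ℕ → ℝ) (G : ℝ) (D X : ℕ) (a : ℤ) : ℝ := ∑ q ∈ Icc 1 D, W q * (Sq g X q a - Ex G q a)

lemma Ex_Fv (G : ℝ) (q : ℕ) (a : ℤ) (hq : 1 ≤ q) : Ex G q a = G * Fv a.natAbs q / q := by
  unfold Ex Fv
  have hq0 : (q : ℝ) ≠ 0 := by exact_mod_cast (by omega : q ≠ 0)
  split_ifs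
  · field_simp
  · simp

lemma MM_abs_zero (W : ℕ → ℝ) (w : ℝ) (hW : ∀ d, |W d| ≤ w) (D z : ℕ) : |MM W D z 0| ≤ w * (1 + Real.log D) * z := by
  have hw : 0 ≤ w := (abs_nonneg _).trans (hW 0)
  have hlD : 0 ≤ Real.log D := Real.log_natCast_nonneg D
  unfold MM
  refine (abs_sum_le_sum_abs _ _).trans ?_
  have h1 : ∀ q ∈ Icc 1 z, |RR W D q * (cz q 0 : ℝ)| ≤ w * (1 + Real.log D) := by
    intro q hq
    rw [mem_Icc] at hq
    have hq0 : (0 : ℝ) < q := by exact_mod_cast (by omega : 0 < q)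
    rw [abs_mul]
    calc |RR W D q| * |(cz q 0 : ℝ)| ≤ (w * ((1 + Real.log D) / q)) * q := by
          apply mul_le_mul (RR_abs W w hW D q hq.1) _ (abs_nonneg _) (by positivity)
          exact_mod_cast abs_cz_le q hq.1 0
      _ = _ := by field_simp
  refine (sum_le_sum h1).trans ?_
  rw [sum_const, Nat.card_Icc, nsmul_eq_mul]
  simp only [Nat.add_sub_cancel]
  linarith

lemma cz_neg (q : ℕ) (m : ℤ) : cz q (-m) = cz q m := by
  unfold cz
  simp only [dvd_neg]

lemma MM_neg (W : ℕ → ℝ) (D z : ℕ) (m : ℤ) : MM W D z (-m) = MM W D z m := by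
  unfold MM
  simp only [cz_neg]

lemma MM_natAbs (W : ℕ → ℝ) (D z : ℕ) (m : ℤ) : MM W D z (m.natAbs : ℤ) = MM W D z m := by
  rcases abs_choice m with h | h
  · rw [Int.natCast_natAbs, h]
  · rw [Int.natCast_natAbs, h, MM_neg]

/-- the sum of the model against `g` -/
lemma model_sum (W g : ℕ → ℝ) (D z X : ℕ) (a : ℤ) : ∑ n ∈ Icc 1 X, g n * MM W D z ((n : ℤ) - a) =
    ∑ r ∈ Icc 1 z, RR W D r * ∑ d ∈ r.divisors, (ArithmeticFunction.moebius (r / d) : ℝ) * d * Sq g X d a := by
  unfold MM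
  simp_rw [mul_sum]
  rw [sum_comm]
  apply sum_congr rfl
  intro r _
  have h1 : ∀ n ∈ Icc 1 X, g n * (RR W D r * (cz r ((n : ℤ) - a) : ℝ)) =
      ∑ d ∈ r.divisors, RR W D r * ((ArithmeticFunction.moebius (r / d) : ℝ) * d * (if (d : ℤ) ∣ (n : ℤ) - a then g n else 0)) := by
    intro n _
    unfold cz
    push_cast
    rw [sum_filter, mul_sum, mul_sum]
    apply sum_congr rfl
    intro d _
    split_ifs
    · ring
    · simp
  rw [sum_congr rfl h1, sum_comm]
  apply sum_congr rfl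
  intro d _
  rw [← mul_sum, ← mul_sum]
  rfl

lemma local_err (g : ℕ → ℝ) (G δ : ℝ) (X z r : ℕ) (a : ℤ) (hr : 1 ≤ r) (hrz : r ≤ z) (h : SW g G X z δ) :
    |∑ d ∈ r.divisors, (ArithmeticFunction.moebius (r / d) : ℝ) * d * Sq g X d a - G * ha a.natAbs r| ≤ r * r * δ := by
  have hδ : 0 ≤ δ := (abs_nonneg _).trans (h r hr hrz 0)
  unfold ha
  rw [mul_sum, ← sum_sub_distrib]
  refine (abs_sum_le_sum_abs _ _).trans ?_
  have h1 : ∀ d ∈ r.divisors, |(ArithmeticFunction.moebius (r / d) : ℝ) * d * Sq g X d a -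
      G * ((ArithmeticFunction.moebius (r / d) : ℝ) * Fv a.natAbs d)| ≤ r * δ := by
    intro d hd
    have hd1 : 1 ≤ d := Nat.pos_of_mem_divisors hd
    have hdr : d ≤ r := Nat.divisor_le hd
    have hd0 : (0 : ℝ) < d := by exact_mod_cast hd1
    have e1 := Ex_Fv G d a hd1
    have e2 : (ArithmeticFunction.moebius (r / d) : ℝ) * d * Sq g X d a - G * ((ArithmeticFunction.moebius (r / d) : ℝ) * Fv a.natAbs d) =
        (ArithmeticFunction.moebius (r / d) : ℝ) * (d * (Sq g X d a - Ex G d a)) := by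
      rw [e1]
      field_simp
    rw [e2, abs_mul, abs_mul, Nat.abs_cast]
    have e3 : |(ArithmeticFunction.moebius (r / d) : ℝ)| ≤ 1 := by
      have := ArithmeticFunction.abs_moebius_le_one (n := r / d)
      exact_mod_cast this
    have e4 := h d hd1 (hdr.trans hrz) a
    calc |(ArithmeticFunction.moebius (r / d) : ℝ)| * (d * |Sq g X d a - Ex G d a|) ≤ 1 * (r * δ) := by
          apply mul_le_mul e3 _ (by positivity) zero_le_one
          exact mul_le_mul (by exact_mod_cast hdr) e4 (abs_nonneg _) (Nat.cast_nonneg _)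
      _ = _ := one_mul _
  refine (sum_le_sum h1).trans ?_
  rw [sum_const, nsmul_eq_mul, mul_assoc]
  apply mul_le_mul_of_nonneg_right _ (by positivity)
  have : r.divisors.card ≤ r := by
    calc r.divisors.card ≤ (Icc 1 r).card := by
          apply card_le_card
          intro d hd
          rw [mem_Icc]
          exact ⟨Nat.pos_of_mem_divisors hd, Nat.divisor_le hd⟩
      _ = r := by rw [Nat.card_Icc]; omega
  exact_mod_cast this

lemma RR_ha (W : ℕ → ℝ) (D a : ℕ) : ∑ r ∈ Icc 1 D, RR W D r * ha a r = ∑ q ∈ Icc 1 D, W q / q * Fv a q := by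
  have h1 : ∀ q ∈ Icc 1 D, W q / q * Fv a q = ∑ r ∈ Icc 1 D, (if r ∣ q then W q / q * ha a r else 0) := by
    intro q hq
    rw [mem_Icc] at hq
    rw [← ha_sum a q hq.1, mul_sum, ← sum_filter]
    apply sum_congr _ fun _ _ => rfl
    ext r
    simp only [mem_filter, Nat.mem_divisors, mem_Icc]
    constructor
    · rintro ⟨h, h'⟩
      exact ⟨⟨Nat.pos_of_dvd_of_pos h (by omega), (Nat.le_of_dvd (by omega) h).trans hq.2⟩, h⟩
    · rintro ⟨_, h⟩
      exact ⟨h, by omega⟩
  rw [sum_congr rfl h1, sum_comm]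
  apply sum_congr rfl
  intro r _
  unfold RR
  rw [sum_filter, sum_mul]
  apply sum_congr rfl
  intro q _
  split_ifs
  · rfl
  · rw [zero_mul]

/-- splitting of the sum over the progressions -/
lemma Er_split (W g : ℕ → ℝ) (G : ℝ) (D z X : ℕ) (a : ℤ) :
    Er W g G D X a = dif W D z X g a +
      ∑ n ∈ Icc 1 X, g n * (if (n : ℤ) = a then (∑ q ∈ Icc 1 D, W q) - MM W D z 0 else 0) +
      (∑ r ∈ Icc 1 z, RR W D r * (∑ d ∈ r.divisors, (ArithmeticFunction.moebius (r / d) : ℝ) * d * Sq g X d a - G * ha a.natAbs r)) +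
      G * (∑ r ∈ Icc 1 z, RR W D r * ha a.natAbs r - ∑ r ∈ Icc 1 D, RR W D r * ha a.natAbs r) := by
  have h1 : Er W g G D X a = ∑ n ∈ Icc 1 X, g n * (∑ q ∈ Icc 1 D, (if (q : ℤ) ∣ (n : ℤ) - a then W q else 0)) -
      G * ∑ q ∈ Icc 1 D, W q / q * Fv a.natAbs q := by
    unfold Er
    simp_rw [mul_sub]
    rw [sum_sub_distrib]
    congr 1
    · unfold Sq
      simp_rw [mul_sum]
      rw [sum_comm]
      apply sum_congr rfl
      intro n _
      apply sum_congr rfl
      intro q _
      split_ifs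
      · ring
      · simp
    · rw [mul_sum]
      apply sum_congr rfl
      intro q hq
      rw [mem_Icc] at hq
      rw [Ex_Fv G q a hq.1]
      ring
  have h2 : ∀ n ∈ Icc 1 X, g n * (∑ q ∈ Icc 1 D, (if (q : ℤ) ∣ (n : ℤ) - a then W q else 0)) =
      g n * (if (n : ℤ) = a then 0 else ff W D z ((n : ℤ) - a).natAbs) +
      g n * (if (n : ℤ) = a then (∑ q ∈ Icc 1 D, W q) - MM W D z 0 else 0) + g n * MM W D z ((n : ℤ) - a) := by
    intro n _
    rw [← mul_add, ← mul_add]
    congr 1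
    split_ifs with h
    · rw [h, sub_self]
      simp
    · unfold ff
      rw [MM_natAbs]
      unfold FF
      rw [add_zero, sub_add_cancel, sum_filter]
      apply sum_congr rfl
      intro q _
      simp only [Int.natCast_dvd]
  have h3 := model_sum W g D z X a
  rw [h1, sum_congr rfl h2, sum_add_distrib, sum_add_distrib, h3, ← RR_ha]
  unfold dif
  simp_rw [mul_sub]
  rw [sum_sub_distrib]
  have h4 : ∑ r ∈ Icc 1 z, RR W D r * (G * ha a.natAbs r) = G * ∑ r ∈ Icc 1 z, RR W D r * ha a.natAbs r := by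
    rw [mul_sum]
    apply sum_congr rfl
    intro r _
    ring
  rw [h4]
  ring

theorem det (W g : ℕ → ℝ) (w γ G δ : ℝ) (D z X y : ℕ) (a : ℤ) (hW : ∀ d, |W d| ≤ w) (hg : ∀ n, |g n| ≤ γ) (ha0 : a ≠ 0)
    (hy : 1 ≤ y) (hyz : y * y ≤ z) (h : SW g G X z δ) (hδ : 0 ≤ δ) :
    |Er W g G D X a| ≤ |dif W D z X g a| + γ * (w * D + w * (1 + Real.log D) * z) + w * (1 + Real.log D) * (z * z * δ) +
      |G| * (w * (1 + Real.log D) * ((1 + Real.log D) ^ 3 / y + (1 + Real.log D) ^ 2 * TT y D a)) := by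
  classical
  have hw : 0 ≤ w := (abs_nonneg _).trans (hW 0)
  have hγ : 0 ≤ γ := (abs_nonneg _).trans (hg 0)
  have hlD : 0 ≤ Real.log D := Real.log_natCast_nonneg D
  have hD0 : (0 : ℝ) ≤ D := Nat.cast_nonneg _
  have hz0 : (0 : ℝ) ≤ z := Nat.cast_nonneg _
  rw [Er_split W g G D z X a]
  have e1 : |∑ n ∈ Icc 1 X, g n * (if (n : ℤ) = a then (∑ q ∈ Icc 1 D, W q) - MM W D z 0 else 0)| ≤
      γ * (w * D + w * (1 + Real.log D) * z) := by
    have hsum : |∑ q ∈ Icc 1 D, W q| ≤ w * D := by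
      refine (abs_sum_le_sum_abs _ _).trans ((sum_le_sum fun q _ => hW q).trans ?_)
      rw [sum_const, Nat.card_Icc, nsmul_eq_mul]
      simp only [Nat.add_sub_cancel]
      linarith
    have hb : |(∑ q ∈ Icc 1 D, W q) - MM W D z 0| ≤ w * D + w * (1 + Real.log D) * z :=
      (abs_sub _ _).trans (add_le_add hsum (MM_abs_zero W w hW D z))
    have hb0 : 0 ≤ w * D + w * (1 + Real.log D) * z := by positivity
    by_cases hex : ∃ n ∈ Icc 1 X, (n : ℤ) = a
    · obtain ⟨n, hn, hna⟩ := hex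
      rw [sum_eq_single n]
      · rw [if_pos hna, abs_mul]
        exact mul_le_mul (hg n) hb (abs_nonneg _) hγ
      · intro m _ hmn
        rw [if_neg, mul_zero]
        intro hma
        apply hmn
        have : (m : ℤ) = n := hma.trans hna.symm
        exact_mod_cast this
      · intro hcon
        exact absurd hn hcon
    · rw [sum_eq_zero, abs_zero]
      · positivity
      · intro n hn
        rw [if_neg, mul_zero]
        intro hcon
        exact hex ⟨n, hn, hcon⟩
  have e2 : |∑ r ∈ Icc 1 z, RR W D r * (∑ d ∈ r.divisors, (ArithmeticFunction.moebius (r / d) : ℝ) * d * Sq g X d a - G * ha a.natAbs r)| ≤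
      w * (1 + Real.log D) * (z * z * δ) := by
    refine (abs_sum_le_sum_abs _ _).trans ?_
    have e3 : ∀ r ∈ Icc 1 z, |RR W D r * (∑ d ∈ r.divisors, (ArithmeticFunction.moebius (r / d) : ℝ) * d * Sq g X d a - G * ha a.natAbs r)| ≤
        w * (1 + Real.log D) * (z * δ) := by
      intro r hr
      rw [mem_Icc] at hr
      have hr0 : (0 : ℝ) < r := by exact_mod_cast (by omega : 0 < r)
      have hrz : (r : ℝ) ≤ z := by exact_mod_cast hr.2
      rw [abs_mul]
      calc |RR W D r| * |∑ d ∈ r.divisors, (ArithmeticFunction.moebius (r / d) : ℝ) * d * Sq g X d a - G * ha a.natAbs r| ≤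
            (w * ((1 + Real.log D) / r)) * (r * r * δ) :=
            mul_le_mul (RR_abs W w hW D r hr.1) (local_err g G δ X z r a hr.1 hr.2 h) (abs_nonneg _) (by positivity)
        _ = w * (1 + Real.log D) * (r * δ) := by field_simp
        _ ≤ _ := by gcongr
    refine (sum_le_sum e3).trans (le_of_eq ?_)
    rw [sum_const, Nat.card_Icc, nsmul_eq_mul]
    simp only [Nat.add_sub_cancel]
    ring
  have e4 : |∑ r ∈ Icc 1 z, RR W D r * ha a.natAbs r - ∑ r ∈ Icc 1 D, RR W D r * ha a.natAbs r| ≤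
      w * (1 + Real.log D) * ((1 + Real.log D) ^ 3 / y + (1 + Real.log D) ^ 2 * TT y D a) := by
    have hTT : 0 ≤ TT y D a := by
      unfold TT
      apply sum_nonneg
      intro j _
      split_ifs <;> positivity
    have hR0 : ∀ r, D < r → RR W D r = 0 := by
      intro r hr
      unfold RR
      rw [filter_eq_empty_iff.2, sum_empty]
      intro d hd hdv
      rw [mem_Icc] at hd
      have := Nat.le_of_dvd (by omega) hdv
      omega
    have e5 : ∑ r ∈ Icc 1 z, RR W D r * ha a.natAbs r - ∑ r ∈ Icc 1 D, RR W D r * ha a.natAbs r =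
        -∑ r ∈ Ioc z D, RR W D r * ha a.natAbs r := by
      rcases le_total z D with hzD | hDz
      · have e6 : Icc 1 D = Icc 1 z ∪ Ioc z D := by
          ext q
          rw [mem_union, mem_Icc, mem_Icc, mem_Ioc]
          omega
        rw [e6, sum_union]
        · ring
        · rw [disjoint_left]
          intro q h2 h3
          rw [mem_Icc] at h2
          rw [mem_Ioc] at h3
          omega
      · rw [Ioc_eq_empty (by omega), sum_empty, neg_zero, sub_eq_zero]
        symm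
        apply sum_subset (Icc_subset_Icc_right hDz)
        intro r hr hr'
        rw [mem_Icc] at hr hr'
        rw [hR0 r (by omega), zero_mul]
    rw [e5, abs_neg]
    refine (abs_sum_le_sum_abs _ _).trans ?_
    have e7 : ∀ r ∈ Ioc z D, |RR W D r * ha a.natAbs r| ≤ w * (1 + Real.log D) * (|ha a.natAbs r| / r) := by
      intro r hr
      rw [mem_Ioc] at hr
      rw [abs_mul]
      calc |RR W D r| * |ha a.natAbs r| ≤ (w * ((1 + Real.log D) / r)) * |ha a.natAbs r| :=
            mul_le_mul_of_nonneg_right (RR_abs W w hW D r (by omega)) (abs_nonneg _)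
        _ = _ := by ring
    refine (sum_le_sum e7).trans ?_
    rw [← mul_sum]
    apply mul_le_mul_of_nonneg_left _ (by positivity)
    have e8 := ha_tail a.natAbs y z D (Int.natAbs_pos.2 ha0) hy hyz
    have e9 : TT y D ((a.natAbs : ℕ) : ℤ) = TT y D a := by
      unfold TT
      apply sum_congr rfl
      intro j _
      simp only [Int.natCast_natAbs, dvd_abs]
    rw [e9] at e8
    exact e8
  have e10 : |G * (∑ r ∈ Icc 1 z, RR W D r * ha a.natAbs r - ∑ r ∈ Icc 1 D, RR W D r * ha a.natAbs r)| ≤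
      |G| * (w * (1 + Real.log D) * ((1 + Real.log D) ^ 3 / y + (1 + Real.log D) ^ 2 * TT y D a)) := by
    rw [abs_mul]
    exact mul_le_mul_of_nonneg_left e4 (abs_nonneg _)
  refine (abs_add_le _ _).trans (add_le_add ((abs_add_le _ _).trans (add_le_add ((abs_add_le _ _).trans (add_le_add le_rfl e1)) e2)) e10)

end Pool.Agent.V11290.TI
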