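import Pool.Agent.V11290.TI.A5

set_option autoImplicit false

/-! Level of distribution for arbitrary functions with a Siegel-Walfisz condition along thin families of residues. -/

namespace Pool.Agent.V11290.TI
open Finset
open Pool.Agent.TH212.DV
open Pool.Agent.H373R2.T7 (energy)

lemma TT_nonneg (y D : ℕ) (a : ℤ) : 0 ≤ TT y D a := by
  unfold TT
  apply sum_nonneg
  intro j _
  split_ifs <;> positivity

theorem fam_sw (p B C T U : ℕ) (hp : 1 ≤ p) : ∃ K E V N₀ : ℕ, ∀ N : ℕ, N₀ ≤ N → ∀ (x : ℕ) (s : ℕ → ℤ),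
    (∀ m ∈ Icc 1 x, |s m| ≤ B * N) → (energy p x s : ℝ) * N ≤ Real.log N ^ C * (x : ℝ) ^ (2 * p) →
    ∀ Ln : ℕ, (Ln : ℝ) ≤ Real.log N ^ T → ∀ X : ℕ → ℕ, (∀ l < Ln, X l ≤ B * N) → ∀ g W : ℕ → ℕ → ℝ,
    (∀ l < Ln, ∀ n, |g l n| ≤ Real.log N ^ T) → (∀ l < Ln, ∀ q, |W l q| ≤ Real.log N ^ T) → ∀ D : ℕ → ℕ,
    (∀ l < Ln, (D l : ℝ) * Real.log N ^ K ≤ N) →
    ∀ 𝒮 : Finset ℕ, 𝒮 ⊆ Icc 1 x → (∀ m ∈ 𝒮, s m ≠ 0 ∧ ∃ l < Ln,
      SW (g l) (∑ n ∈ Icc 1 (X l), g l n) (X l) ⌈Real.log N ^ E⌉₊ (N / Real.log N ^ V) ∧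
      N / Real.log N ^ U < |Er (W l) (g l) (∑ n ∈ Icc 1 (X l), g l n) (D l) (X l) (s m)|) →
    (𝒮.card : ℝ) ≤ x / Real.log N ^ U := by
  classical
  obtain ⟨c, hc⟩ : ∃ c, c = 2 * T + U + 4 := ⟨_, rfl⟩
  obtain ⟨U2, hU2⟩ : ∃ U2, U2 = T + 2 * U + 1 := ⟨_, rfl⟩
  obtain ⟨K0, B0, hmom⟩ := mom p B C (2 * T + 1) T U2
  obtain ⟨B1, nt, htt⟩ := tt_mean p B C (c + U + 1) hp
  obtain ⟨E1, hE1⟩ : ∃ E1, E1 = B0 + B1 + 2 * T + U + 7 := ⟨_, rfl⟩
  obtain ⟨K, hK⟩ : ∃ K, K = K0 + 2 * T + U + 1 := ⟨_, rfl⟩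
  obtain ⟨V, hV⟩ : ∃ V, V = T + 1 + 2 * (2 * E1) + U + 1 := ⟨_, rfl⟩
  obtain ⟨nm, hm⟩ := hmom (2 * E1 + 1)
  obtain ⟨n1, h1⟩ := ev_log (128 * B + 128 : ℝ)
  obtain ⟨n2, h2⟩ := ev_pow (2 * T + 1 + 2 * E1 + U) 32 1 one_pos
  refine ⟨K, 2 * E1, V, nm + nt + n1 + n2 + 3, fun N hN x s hs hE Ln hLn X hX g W hg hW D hD 𝒮 h𝒮x h𝒮 => ?_⟩
  have a1 := h1 N (by omega)
  have a2 := h2 N (by omega)
  rw [Real.rpow_one] at a2
  have hN1 : 1 ≤ N := by omega
  have hN0 : (0 : ℝ) < N := by exact_mod_cast hN1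
  have hmm := hm N (by omega) x s hs hE
  have htm := htt N (by omega) x s hs hE
  obtain ⟨L, hL⟩ : ∃ L, L = Real.log (N : ℝ) := ⟨_, rfl⟩
  rw [← hL] at a1 a2 hE hmm htm hLn hg hW hD h𝒮 ⊢
  have hB0 : (0 : ℝ) ≤ B := Nat.cast_nonneg _
  have hx0 : (0 : ℝ) ≤ x := Nat.cast_nonneg _
  have hL128 : 128 ≤ L := by linarith
  have hL1 : 1 ≤ L := by linarith
  have hL0 : 0 < L := by linarith
  obtain ⟨z, hz⟩ : ∃ z, z = ⌈L ^ (2 * E1)⌉₊ := ⟨_, rfl⟩
  rw [← hz] at h𝒮
  have hz1 : L ^ (2 * E1) ≤ z := by rw [hz]; exact Nat.le_ceil _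
  have hz2 : (z : ℝ) ≤ 2 * L ^ (2 * E1) := by
    have h6 : (z : ℝ) < L ^ (2 * E1) + 1 := by rw [hz]; exact Nat.ceil_lt_add_one (by positivity)
    have h7 : 1 ≤ L ^ (2 * E1) := one_le_pow₀ hL1
    linarith
  obtain ⟨y, hy⟩ : ∃ y, y = ⌊L ^ E1⌋₊ := ⟨_, rfl⟩
  have hy1 : (y : ℝ) ≤ L ^ E1 := by rw [hy]; exact Nat.floor_le (by positivity)
  have hy2 : L ^ (E1 - 1) ≤ y := by
    have h6 : L ^ E1 < (y : ℝ) + 1 := by rw [hy]; exact Nat.lt_floor_add_one _
    have h7 : L ^ E1 = L * L ^ (E1 - 1) := by rw [← pow_succ']; congr 1; omega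
    have h8 : 1 ≤ L ^ (E1 - 1) := one_le_pow₀ hL1
    rw [h7] at h6
    nlinarith
  have hy0 : (1 : ℝ) ≤ y := (one_le_pow₀ hL1).trans hy2
  have hy1n : 1 ≤ y := by exact_mod_cast hy0
  have hyz : y * y ≤ z := by
    have : (y : ℝ) * y ≤ z := by
      calc (y : ℝ) * y ≤ L ^ E1 * L ^ E1 := mul_le_mul hy1 hy1 (Nat.cast_nonneg _) (by positivity)
        _ = L ^ (2 * E1) := by rw [← pow_add]; congr 1; ring
        _ ≤ z := hz1
    exact_mod_cast this
  -- the two sets
  obtain ⟨R, hR⟩ : ∃ R : ℝ, R = N / L ^ U := ⟨_, rfl⟩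
  have hR0 : 0 < R := by rw [hR]; positivity
  rw [← hR] at h𝒮
  have hDN : ∀ l < Ln, D l ≤ N := by
    intro l hl
    have : (D l : ℝ) ≤ N := by
      refine le_trans ?_ (hD l hl)
      exact le_mul_of_one_le_right (Nat.cast_nonneg _) (one_le_pow₀ hL1)
    exact_mod_cast this
  have hTTD : ∀ l < Ln, ∀ a, TT y (D l) a ≤ TT y N a := by
    intro l hl a
    unfold TT
    apply sum_le_sum_of_subset_of_nonneg
    · exact Ioc_subset_Ioc_right (hDN l hl)
    · intro j _ _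
      split_ifs <;> positivity
  have hsplit : ∀ m ∈ 𝒮, (∃ l ∈ range Ln, R / 4 < |dif (W l) (D l) z (X l) (g l) (s m)|) ∨ 1 / L ^ c < TT y N (s m) := by
    intro m hm
    obtain ⟨hs0, l, hl, hSW, hbig⟩ := h𝒮 m hm
    by_contra hcon
    push Not at hcon
    obtain ⟨hd, ht⟩ := hcon
    have hd' := hd l (mem_range.2 hl)
    have hδ : (0 : ℝ) ≤ N / L ^ V := by positivity
    have key := det (W l) (g l) (L ^ T) (L ^ T) (∑ n ∈ Icc 1 (X l), g l n) (N / L ^ V) (D l) z (X l) y (s m) (hW l hl) (hg l hl) hs0 hy1n hyz hSW hδ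
    have hlD0 : 0 ≤ Real.log (D l) := Real.log_natCast_nonneg _
    have hlD : 1 + Real.log (D l) ≤ 2 * L := by
      have : Real.log (D l) ≤ L := by
        rcases Nat.eq_zero_or_pos (D l) with h | h
        · rw [h, Nat.cast_zero, Real.log_zero]
          exact hL0.le
        · rw [hL]
          exact Real.log_le_log (by exact_mod_cast h) (by exact_mod_cast hDN l hl)
      linarith
    have hlD1 : 0 ≤ 1 + Real.log (D l) := by linarith
    have hG : |∑ n ∈ Icc 1 (X l), g l n| ≤ B * N * L ^ T := by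
      refine (abs_sum_le_sum_abs _ _).trans ((sum_le_sum fun n _ => hg l hl n).trans ?_)
      rw [sum_const, Nat.card_Icc, nsmul_eq_mul]
      apply mul_le_mul_of_nonneg_right _ (by positivity)
      have : X l + 1 - 1 ≤ B * N := by have := hX l hl; omega
      exact_mod_cast this
    have hTT := (hTTD l hl (s m)).trans ht
    have hTT0 := TT_nonneg y (D l) (s m)
    -- first term
    have t1 : L ^ T * (L ^ T * D l) ≤ R / 8 := by
      have e1 : (D l : ℝ) ≤ N / L ^ K := by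
        rw [le_div_iff₀ (by positivity)]
        exact hD l hl
      calc L ^ T * (L ^ T * D l) ≤ L ^ T * (L ^ T * (N / L ^ K)) := by gcongr
        _ = N * L ^ (2 * T) / L ^ K := by rw [two_mul, pow_add]; ring
        _ ≤ N * L ^ (2 * T) / L ^ (2 * T + U + 1) := by
            apply div_le_div_of_nonneg_left (by positivity) (by positivity)
            exact pow_le_pow_right₀ hL1 (by omega)
        _ = R / L := by
            rw [hR, show 2 * T + U + 1 = 2 * T + (U + 1) by ring, pow_add L (2 * T), pow_succ L U]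
            field_simp
        _ ≤ R / 8 := div_le_div_of_nonneg_left hR0.le (by norm_num) (by linarith)
    have t2 : L ^ T * (L ^ T * (1 + Real.log (D l)) * z) ≤ R / 8 := by
      calc L ^ T * (L ^ T * (1 + Real.log (D l)) * z) ≤ L ^ T * (L ^ T * (2 * L) * (2 * L ^ (2 * E1))) := by gcongr
        _ = (32 * L ^ (2 * T + 1 + 2 * E1 + U)) / L ^ U / 8 := by
            rw [pow_add L (2 * T + 1 + 2 * E1) U, pow_add L (2 * T + 1) (2 * E1), pow_succ, two_mul T, pow_add L T T]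
            field_simp
            ring
        _ ≤ N / L ^ U / 8 := by gcongr
        _ = R / 8 := by rw [hR]
    have t3 : L ^ T * (1 + Real.log (D l)) * (z * z * (N / L ^ V)) ≤ R / 8 := by
      calc L ^ T * (1 + Real.log (D l)) * (z * z * (N / L ^ V)) ≤
            L ^ T * (2 * L) * ((2 * L ^ (2 * E1)) * (2 * L ^ (2 * E1)) * (N / L ^ V)) := by gcongr
        _ = 8 * (R / L) := by
            rw [hR, hV, show T + 1 + 2 * (2 * E1) + U + 1 = T + (1 + (2 * (2 * E1) + (U + 1))) by ring, pow_add L T, pow_add L 1,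
              pow_add L (2 * (2 * E1)), pow_succ L U, two_mul (2 * E1), pow_add L (2 * E1) (2 * E1)]
            field_simp
            ring
        _ ≤ 8 * (R / 128) := by
            apply mul_le_mul_of_nonneg_left _ (by norm_num)
            exact div_le_div_of_nonneg_left hR0.le (by norm_num) hL128
        _ ≤ R / 8 := by linarith
    have t4 : |∑ n ∈ Icc 1 (X l), g l n| * (L ^ T * (1 + Real.log (D l)) * ((1 + Real.log (D l)) ^ 3 / y)) ≤ R / 8 := by
      calc |∑ n ∈ Icc 1 (X l), g l n| * (L ^ T * (1 + Real.log (D l)) * ((1 + Real.log (D l)) ^ 3 / y)) ≤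
            (B * N * L ^ T) * (L ^ T * (2 * L) * ((2 * L) ^ 3 / L ^ (2 * T + U + 5))) := by
            have hyy : L ^ (2 * T + U + 5) ≤ y := (pow_le_pow_right₀ hL1 (by omega)).trans hy2
            gcongr
        _ = 16 * B * (R / L) := by
            rw [hR, show 2 * T + U + 5 = T + (T + (U + (4 + 1))) by ring, pow_add L T, pow_add L T, pow_add L U, pow_add L 4 1]
            field_simp
            ring
        _ ≤ R / 8 := by
            rw [mul_div_assoc', div_le_div_iff₀ hL0 (by norm_num)]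
            nlinarith
    have t5 : |∑ n ∈ Icc 1 (X l), g l n| * (L ^ T * (1 + Real.log (D l)) * ((1 + Real.log (D l)) ^ 2 * TT y (D l) (s m))) ≤ R / 8 := by
      calc |∑ n ∈ Icc 1 (X l), g l n| * (L ^ T * (1 + Real.log (D l)) * ((1 + Real.log (D l)) ^ 2 * TT y (D l) (s m))) ≤
            (B * N * L ^ T) * (L ^ T * (2 * L) * ((2 * L) ^ 2 * (1 / L ^ c))) := by
            gcongr
        _ = 8 * B * (R / L) := by
            rw [hR, hc, show 2 * T + U + 4 = T + (T + (U + (3 + 1))) by ring, pow_add L T, pow_add L T, pow_add L U, pow_add L 3 1]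
            field_simp
            ring
        _ ≤ R / 8 := by
            rw [mul_div_assoc', div_le_div_iff₀ hL0 (by norm_num)]
            nlinarith
    have t45 : |∑ n ∈ Icc 1 (X l), g l n| * (L ^ T * (1 + Real.log (D l)) * ((1 + Real.log (D l)) ^ 3 / y + (1 + Real.log (D l)) ^ 2 * TT y (D l) (s m))) =
        |∑ n ∈ Icc 1 (X l), g l n| * (L ^ T * (1 + Real.log (D l)) * ((1 + Real.log (D l)) ^ 3 / y)) +
        |∑ n ∈ Icc 1 (X l), g l n| * (L ^ T * (1 + Real.log (D l)) * ((1 + Real.log (D l)) ^ 2 * TT y (D l) (s m))) := by ring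
    rw [t45, mul_add (L ^ T)] at key
    linarith
  obtain ⟨𝒮1, h𝒮1⟩ : ∃ 𝒮1, 𝒮1 = (range Ln).biUnion (fun l => (Icc 1 x).filter (fun m => R / 4 < |dif (W l) (D l) z (X l) (g l) (s m)|)) := ⟨_, rfl⟩
  obtain ⟨𝒮2, h𝒮2⟩ : ∃ 𝒮2, 𝒮2 = (Icc 1 x).filter (fun m => 1 / L ^ c < TT y N (s m)) := ⟨_, rfl⟩
  have hsub : 𝒮 ⊆ 𝒮1 ∪ 𝒮2 := by
    intro m hm
    rw [mem_union, h𝒮1, h𝒮2, mem_biUnion, mem_filter]
    rcases hsplit m hm with ⟨l, hl, h⟩ | h
    · exact Or.inl ⟨l, hl, mem_filter.2 ⟨h𝒮x hm, h⟩⟩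
    · exact Or.inr ⟨h𝒮x hm, h⟩
  have hxU : 0 ≤ x / L ^ U := by positivity
  have hc2 : (𝒮2.card : ℝ) ≤ x / L ^ U / 2 := by
    have e1 := htm y ((pow_le_pow_right₀ hL1 (by omega)).trans hy2) N le_rfl
    have e2 : (𝒮2.card : ℝ) * (1 / L ^ c) ≤ ∑ m ∈ Icc 1 x, TT y N (s m) := by
      calc (𝒮2.card : ℝ) * (1 / L ^ c) = ∑ m ∈ 𝒮2, 1 / L ^ c := by rw [sum_const, nsmul_eq_mul]
        _ ≤ ∑ m ∈ 𝒮2, TT y N (s m) := by
            apply sum_le_sum
            intro m hm
            rw [h𝒮2, mem_filter] at hm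
            exact hm.2.le
        _ ≤ ∑ m ∈ Icc 1 x, TT y N (s m) := by
            apply sum_le_sum_of_subset_of_nonneg
            · rw [h𝒮2]
              exact filter_subset _ _
            · intro m _ _
              exact TT_nonneg _ _ _
    have e3 := e2.trans e1
    rw [mul_one_div, div_le_iff₀ (by positivity)] at e3
    refine e3.trans ?_
    calc (x : ℝ) / L ^ (c + U + 1) * L ^ c = x / L ^ U / L := by
          rw [show c + U + 1 = c + (U + 1) by ring, pow_add L c, pow_succ L U]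
          field_simp
      _ ≤ x / L ^ U / 2 := div_le_div_of_nonneg_left hxU (by norm_num) (by linarith)
  have hc1 : (𝒮1.card : ℝ) ≤ x / L ^ U / 2 := by
    have e0 : ∀ l ∈ range Ln, (((Icc 1 x).filter (fun m => R / 4 < |dif (W l) (D l) z (X l) (g l) (s m)|)).card : ℝ) ≤ 4 * x * L ^ U / L ^ U2 := by
      intro l hl
      rw [mem_range] at hl
      have hgs : ∑ n ∈ Icc 1 (X l), g l n ^ 2 ≤ N * L ^ (2 * T + 1) := by
        have e1 : ∀ n ∈ Icc 1 (X l), g l n ^ 2 ≤ L ^ (2 * T) := by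
          intro n _
          rw [← sq_abs, mul_comm 2 T, pow_mul]
          exact pow_le_pow_left₀ (abs_nonneg _) (hg l hl n) 2
        refine (sum_le_sum e1).trans ?_
        rw [sum_const, Nat.card_Icc, nsmul_eq_mul]
        have e2 : ((X l + 1 - 1 : ℕ) : ℝ) ≤ B * N := by
          have : X l + 1 - 1 ≤ B * N := by have := hX l hl; omega
          exact_mod_cast this
        calc ((X l + 1 - 1 : ℕ) : ℝ) * L ^ (2 * T) ≤ (B * N) * L ^ (2 * T) := by gcongr
          _ = N * (L ^ (2 * T) * B) := by ring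
          _ ≤ N * (L ^ (2 * T) * L) := by
              gcongr
              linarith
          _ = _ := by rw [pow_succ]
      have hzB : L ^ B0 ≤ z := (pow_le_pow_right₀ hL1 (by omega)).trans hz1
      have hzE : (z : ℝ) ≤ L ^ (2 * E1 + 1) := by
        refine hz2.trans ?_
        rw [pow_succ, mul_comm]
        exact mul_le_mul_of_nonneg_left (by linarith) (by positivity)
      have hDK : (D l : ℝ) * L ^ K0 ≤ N := by
        refine le_trans ?_ (hD l hl)
        apply mul_le_mul_of_nonneg_left _ (Nat.cast_nonneg _)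
        exact pow_le_pow_right₀ hL1 (by omega)
      have e3 := hmm z hzB hzE (X l) (hX l hl) (g l) hgs (W l) (hW l hl) (D l) hDK
      obtain ⟨F, hF⟩ : ∃ F, F = (Icc 1 x).filter (fun m => R / 4 < |dif (W l) (D l) z (X l) (g l) (s m)|) := ⟨_, rfl⟩
      rw [← hF]
      have e4 : (F.card : ℝ) * (R / 4) ≤ N * x / L ^ U2 := by
        calc (F.card : ℝ) * (R / 4) = ∑ m ∈ F, R / 4 := by rw [sum_const, nsmul_eq_mul]
          _ ≤ ∑ m ∈ F, |dif (W l) (D l) z (X l) (g l) (s m)| := by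
              apply sum_le_sum
              intro m hm
              rw [hF, mem_filter] at hm
              exact hm.2.le
          _ ≤ ∑ m ∈ Icc 1 x, |dif (W l) (D l) z (X l) (g l) (s m)| := by
              apply sum_le_sum_of_subset_of_nonneg
              · rw [hF]
                exact filter_subset _ _
              · intro m _ _
                exact abs_nonneg _
          _ ≤ _ := e3
      rw [← le_div_iff₀ (by positivity)] at e4
      refine e4.trans (le_of_eq ?_)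
      rw [hR]
      field_simp
    have e5 : (𝒮1.card : ℝ) ≤ ∑ l ∈ range Ln, (((Icc 1 x).filter (fun m => R / 4 < |dif (W l) (D l) z (X l) (g l) (s m)|)).card : ℝ) := by
      rw [h𝒮1]
      exact_mod_cast card_biUnion_le
    refine (e5.trans (sum_le_sum e0)).trans ?_
    rw [sum_const, card_range, nsmul_eq_mul]
    calc (Ln : ℝ) * (4 * x * L ^ U / L ^ U2) ≤ L ^ T * (4 * x * L ^ U / L ^ U2) := by gcongr
      _ = 4 * (x / L ^ U / L) := by
          rw [hU2, show T + 2 * U + 1 = T + (U + (U + 1)) by ring, pow_add L T, pow_add L U, pow_succ L U]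
          field_simp
      _ ≤ 4 * (x / L ^ U / 128) := by
          apply mul_le_mul_of_nonneg_left _ (by norm_num)
          exact div_le_div_of_nonneg_left hxU (by norm_num) hL128
      _ ≤ _ := by linarith
  have hfin : (𝒮.card : ℝ) ≤ 𝒮1.card + 𝒮2.card := by
    exact_mod_cast (card_le_card hsub).trans (card_union_le _ _)
  linarith

end Pool.Agent.V11290.TI
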