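import Pool.Agent.V11290.TI.A7
import Pool.Agent.V11290.FD.Fam4

set_option autoImplicit false

/-! Level of distribution for arbitrary functions with a Siegel-Walfisz condition, residues near `t α + s`. -/

namespace Pool.Agent.V11290.TI
open Finset
open MeasureTheory
open Pool.Agent.TH212.DV

theorem sw_ae (μ : Measure ℝ) [IsProbabilityMeasure μ] (B : ℝ) (hμ : ∀ᵐ α ∂μ, |α| ≤ B)
    (C σ : ℝ) (hσ : 0 < σ) (hdec : ∀ ξ : ℝ, 1 ≤ |ξ| → ‖charFun μ ξ‖ ≤ C * |ξ| ^ (-σ))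
    (J : Type) (t s : J → ℝ) (ht : ∀ j, 2 ≤ t j) (hs : ∀ j, |s j| ≤ B * t j)
    (hsum : ∃ V : ℕ, Summable fun j => 1 / Real.log (t j) ^ V) (G T : ℕ) (Ln : J → ℕ)
    (hL : ∀ j, (Ln j : ℝ) ≤ Real.log (t j) ^ T) (X : (j : J) → Fin (Ln j) → ℕ) (hX : ∀ j l, X j l ≤ G * ⌈t j⌉₊)
    (g W : (j : J) → Fin (Ln j) → ℕ → ℝ) (hg : ∀ j l, ∀ n ≤ X j l, |g j l n| ≤ Real.log (t j) ^ T)
    (hW : ∀ j l q, |W j l q| ≤ Real.log (t j) ^ T) :
    ∀ᵐ α ∂μ, ∀ A U : ℕ, ∃ K E V : ℕ,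
      {j | ¬ ∀ a : ℤ, a ≠ 0 → |(a : ℝ) - (t j * α + s j)| ≤ Real.log (t j) ^ A → ∀ l,
        SW (g j l) (∑ n ∈ Icc 1 (X j l), g j l n) (X j l) ⌈Real.log ⌈t j⌉₊ ^ E⌉₊ (⌈t j⌉₊ / Real.log ⌈t j⌉₊ ^ V) →
        |Er (W j l) (g j l) (∑ n ∈ Icc 1 (X j l), g j l n) ⌊⌈t j⌉₊ / Real.log ⌈t j⌉₊ ^ K⌋₊ (X j l) a| ≤
          ⌈t j⌉₊ / Real.log ⌈t j⌉₊ ^ U}.Finite := by
  classical
  obtain ⟨V, hV⟩ := hsum
  obtain ⟨p, hp⟩ := exists_nat_ge (1 / σ)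
  obtain ⟨B₁, hB₁⟩ := exists_nat_ge (2 * (|B| + 1) + 8)
  have hpσ : 1 ≤ ((p + 1 : ℕ) : ℝ) * σ := by
    rw [div_le_iff₀ hσ] at hp
    push_cast
    nlinarith
  choose K E V' N₀ h0 using fun A U : ℕ => fam_fin (p + 1) (max B₁ G) 1 T (U + V + A + 2) (by omega)
  have h := Pool.Agent.V11290.FD.abs_one' (|B| + 1) C σ (by positivity) hσ μ hdec
    (by
      filter_upwards [hμ] with α hα
      linarith [le_abs_self B]) t s ht V hV (fun j => (hs j).trans (by nlinarith [ht j, le_abs_self B])) (p + 1) (by omega) hpσ B₁ hB₁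
    (fun A i j a => a ≠ 0 → ∀ l,
        SW (g j l) (∑ n ∈ Icc 1 (X j l), g j l n) (X j l) ⌈Real.log ⌈t j⌉₊ ^ (E A i)⌉₊ (⌈t j⌉₊ / Real.log ⌈t j⌉₊ ^ (V' A i)) →
        |Er (W j l) (g j l) (∑ n ∈ Icc 1 (X j l), g j l n) ⌊⌈t j⌉₊ / Real.log ⌈t j⌉₊ ^ (K A i)⌋₊ (X j l) a| ≤
          ⌈t j⌉₊ / Real.log ⌈t j⌉₊ ^ i) (by
    intro A i
    refine ⟨max (N₀ A i) (Real.exp 1), fun j hj x v hx hv hE 𝒮 h𝒮 hbad => ?_⟩
    have hN1 : t j ≤ (⌈t j⌉₊ : ℝ) := Nat.le_ceil _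
    have hN : N₀ A i ≤ ⌈t j⌉₊ := by
      have : (N₀ A i : ℝ) ≤ (⌈t j⌉₊ : ℝ) := ((le_max_left _ _).trans hj).trans hN1
      exact_mod_cast this
    have htj : 0 < t j := by linarith [ht j]
    have hlog : Real.log (t j) ≤ Real.log (⌈t j⌉₊ : ℝ) := Real.log_le_log htj hN1
    have hlog0 : 0 ≤ Real.log (t j) := Real.log_nonneg (by linarith [ht j])
    have hlog1 : 1 ≤ Real.log (⌈t j⌉₊ : ℝ) := by
      refine le_trans ?_ hlog
      rw [Real.le_log_iff_exp_le htj]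
      exact (le_max_right _ _).trans hj
    have hT : Real.log (t j) ^ T ≤ Real.log (⌈t j⌉₊ : ℝ) ^ T := pow_le_pow_left₀ hlog0 hlog T
    have h1 := h0 A i ⌈t j⌉₊ hN x v (fun m hm => (hv m hm).trans (by
        apply mul_le_mul_of_nonneg_right _ (by positivity)
        exact_mod_cast le_max_left _ _)) (by rw [pow_one]; exact hE) (Ln j) ((hL j).trans hT) (X j)
      (fun l => (hX j l).trans (Nat.mul_le_mul_right _ (le_max_right _ _))) (g j) (W j)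
      (fun l n hn => (hg j l n hn).trans hT) (fun l q => (hW j l q).trans hT) 𝒮 h𝒮 (by
      intro m hm
      have h2 := hbad m hm
      push Not at h2
      obtain ⟨h3, l, h4, h5⟩ := h2
      refine ⟨h3, l, h4, lt_of_le_of_lt ?_ h5⟩
      apply div_le_div_of_nonneg_left (Nat.cast_nonneg _) (by positivity)
      exact pow_le_pow_right₀ hlog1 (by omega))
    refine h1.trans ?_
    apply div_le_div_of_nonneg_left (Nat.cast_nonneg _) (by positivity)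
    exact pow_le_pow_right₀ hlog1 (by omega))
  filter_upwards [h] with α hα A U
  refine ⟨K A U, E A U, V' A U, (hα A U).subset ?_⟩
  intro j hj
  rw [Set.mem_ofPred_eq] at hj ⊢
  intro hall
  exact hj fun a ha0 ha l => hall a ha ha0 l

end Pool.Agent.V11290.TI
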